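import Mathlib

/-!
# The asymptotic form of the bounds
-/

set_option autoImplicit false

namespace Pool.Agent.V11163.NT

/-- Choice of `k`. -/
theorem asym (C : ℕ) (hC : 1 ≤ C) {ε : ℝ} (hε : 0 < ε) (hε1 : ε ≤ 1) : ∃ n₀ : ℕ, ∀ n ≥ n₀,
    ∃ k : ℕ, ε / (3 * C) * Real.logb 2 n ≤ k ∧
      (∀ μ : ℕ, (μ : ℝ) ≤ (n : ℝ) ^ (1 - ε) → μ ≤ n / 2 ^ (C * (k + 1))) ∧
      (∀ w : ℕ, (w : ℝ) ≤ (n : ℝ) ^ (1 - ε) → ¬ n ≤ 2 ^ (C * (k + 1)) * (w + 1)) := by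
  obtain ⟨n₀, hn₀⟩ := exists_nat_gt ((2 : ℝ) ^ ((2 * C + 1) * (3 / (2 * ε))))
  refine ⟨max n₀ 1, fun n hn => ?_⟩
  have hn1 : 1 ≤ n := le_trans (le_max_right _ _) hn
  have hnR : (1 : ℝ) ≤ n := by exact_mod_cast hn1
  have hn0 : (0 : ℝ) < n := by linarith
  have hC' : (1 : ℝ) ≤ C := by exact_mod_cast hC
  have hbig : (2 : ℝ) ^ ((2 * C + 1 : ℝ)) < (n : ℝ) ^ (2 * ε / 3) := by
    have h1 : (2 : ℝ) ^ ((2 * C + 1) * (3 / (2 * ε))) < n := by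
      refine hn₀.trans_le ?_
      exact_mod_cast le_trans (le_max_left _ _) hn
    have h2 := Real.rpow_lt_rpow (by positivity) h1 (show (0 : ℝ) < 2 * ε / 3 by positivity)
    rw [← Real.rpow_mul (by norm_num)] at h2
    refine lt_of_eq_of_lt ?_ h2
    congr 1
    field_simp
  have hlog : 0 ≤ Real.logb 2 n := Real.logb_nonneg (by norm_num) hnR
  obtain ⟨k, hk⟩ : ∃ k : ℕ, k = ⌈ε / (3 * C) * Real.logb 2 n⌉₊ := ⟨_, rfl⟩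
  have hk1 : ε / (3 * C) * Real.logb 2 n ≤ k := by rw [hk]; exact Nat.le_ceil _
  have hk2 : (k : ℝ) ≤ ε / (3 * C) * Real.logb 2 n + 1 := by
    rw [hk]; exact (Nat.ceil_lt_add_one (by positivity)).le
  have hpow : ((2 ^ (C * (k + 1)) : ℕ) : ℝ) ≤ 2 ^ (2 * C : ℝ) * (n : ℝ) ^ (ε / 3) := by
    have h1 : ((2 ^ (C * (k + 1)) : ℕ) : ℝ) = (2 : ℝ) ^ ((C * (k + 1) : ℕ) : ℝ) := by
      rw [Real.rpow_natCast]; push_cast; rfl
    have h2 : (n : ℝ) ^ (ε / 3) = (2 : ℝ) ^ (Real.logb 2 n * (ε / 3)) := by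
      rw [Real.rpow_mul (by norm_num), Real.rpow_logb (by norm_num) (by norm_num) hn0]
    rw [h1, h2, ← Real.rpow_add (by norm_num)]
    apply Real.rpow_le_rpow_of_exponent_le (by norm_num)
    push_cast
    calc (C : ℝ) * (k + 1) ≤ C * (ε / (3 * C) * Real.logb 2 n + 1 + 1) := by
          gcongr
      _ = 2 * C + Real.logb 2 n * (ε / 3) := by field_simp; ring
  have hD0 : (0 : ℝ) < ((2 ^ (C * (k + 1)) : ℕ) : ℝ) := by positivity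
  -- `2 n ^ (1 - ε) D < n`
  have hkey : ((2 ^ (C * (k + 1)) : ℕ) : ℝ) * (2 * (n : ℝ) ^ (1 - ε)) < n := by
    calc ((2 ^ (C * (k + 1)) : ℕ) : ℝ) * (2 * (n : ℝ) ^ (1 - ε)) ≤
        (2 ^ (2 * C : ℝ) * (n : ℝ) ^ (ε / 3)) * (2 * (n : ℝ) ^ (1 - ε)) := by
          gcongr
      _ = 2 ^ (2 * C + 1 : ℝ) * ((n : ℝ) ^ (ε / 3) * (n : ℝ) ^ (1 - ε)) := by
          rw [Real.rpow_add (by norm_num), Real.rpow_one]; ring
      _ < (n : ℝ) ^ (2 * ε / 3) * ((n : ℝ) ^ (ε / 3) * (n : ℝ) ^ (1 - ε)) := by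
          apply mul_lt_mul_of_pos_right hbig
          positivity
      _ = n := by
          rw [← Real.rpow_add hn0, ← Real.rpow_add hn0]
          rw [show 2 * ε / 3 + (ε / 3 + (1 - ε)) = 1 by ring, Real.rpow_one]
  have h1n : (1 : ℝ) ≤ (n : ℝ) ^ (1 - ε) := Real.one_le_rpow hnR (by linarith)
  refine ⟨k, hk1, fun μ hμ => ?_, fun w hw h => ?_⟩
  · rw [Nat.le_div_iff_mul_le (by positivity)]
    have h2 : ((μ * 2 ^ (C * (k + 1)) : ℕ) : ℝ) ≤ n := by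
      rw [Nat.cast_mul, mul_comm]
      calc ((2 ^ (C * (k + 1)) : ℕ) : ℝ) * μ ≤
          ((2 ^ (C * (k + 1)) : ℕ) : ℝ) * (2 * (n : ℝ) ^ (1 - ε)) := by
            apply mul_le_mul_of_nonneg_left _ hD0.le
            linarith
        _ ≤ n := hkey.le
    exact_mod_cast h2
  · have h2 : (n : ℝ) ≤ ((2 ^ (C * (k + 1)) : ℕ) : ℝ) * (w + 1) := by exact_mod_cast h
    have h3 : ((2 ^ (C * (k + 1)) : ℕ) : ℝ) * (w + 1) ≤
        ((2 ^ (C * (k + 1)) : ℕ) : ℝ) * (2 * (n : ℝ) ^ (1 - ε)) := by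
      apply mul_le_mul_of_nonneg_left _ hD0.le
      linarith
    linarith

/-- The asymptotic form of a bound. -/
theorem asym' (C : ℕ) (hC : 1 ≤ C) {ε : ℝ} (hε : 0 < ε) (hε1 : ε ≤ 1) : ∃ n₀ : ℕ, ∀ n ≥ n₀,
    ∀ w μ : ℕ, (w : ℝ) ≤ (n : ℝ) ^ (1 - ε) → (μ : ℝ) ≤ (n : ℝ) ^ (1 - ε) →
    ∀ (R : Type) (d l : R → ℕ), (∀ r, l r ≤ w) →
      (∀ k : ℕ, μ ≤ n / 2 ^ (C * (k + 1)) → (∀ r, d r ≤ k * n) →
        ∃ r, n ≤ 2 ^ (C * (k + 1)) * (l r + 1)) →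
      ∃ r, ε / (3 * C) * (n * Real.logb 2 n) ≤ d r := by
  obtain ⟨n₀, hn₀⟩ := asym C hC hε hε1
  refine ⟨n₀, fun n hn w μ hw hμ R d l hl h => ?_⟩
  obtain ⟨k, hk1, hk2, hk3⟩ := hn₀ n hn
  by_contra hcon
  push Not at hcon
  obtain ⟨r, hr⟩ := h k (hk2 μ hμ) (fun r => by
    have h1 := hcon r
    have h2 : (d r : ℝ) ≤ k * n := by
      calc (d r : ℝ) ≤ ε / (3 * C) * (n * Real.logb 2 n) := h1.le
        _ = (ε / (3 * C) * Real.logb 2 n) * n := by ring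
        _ ≤ k * n := by gcongr
    exact_mod_cast h2)
  exact hk3 w hw (hr.trans (Nat.mul_le_mul_left _ (Nat.add_le_add_right (hl r) 1)))

end Pool.Agent.V11163.NT
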