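import Pool.Agent.V11163.NT.Core

/-!
# Hidden pairs and tree tensor networks with many reads: the bounds
-/

set_option autoImplicit false

open Finset

namespace Pool.Agent.V11163.NT

open Pool.Agent.TH700.TN Pool.Agent.V11163.GI Pool.Agent.W896.FD Pool.Agent.W896.RK
open Pool.Agent.W896.FD.Star (dst vol arith2 inI inJ grS inS inS_diff)

theorem pow_log_bound {w s k lg m' : ℕ} (hlg : lg = Nat.log 2 w) (hs : s ≤ 256 * (k + 1) ^ 2)
    (hm' : m' = 512 * (k + 1) ^ 2 + 1) : (w ^ s) ^ 2 ≤ 2 ^ (2 * (lg + 1) * m') := by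
  have h1 : w ≤ 2 ^ (lg + 1) := by
    rw [hlg]
    exact (Nat.lt_pow_succ_log_self (by norm_num) w).le
  calc (w ^ s) ^ 2 ≤ ((2 ^ (lg + 1)) ^ s) ^ 2 :=
        Nat.pow_le_pow_left (Nat.pow_le_pow_left h1 s) 2
    _ = 2 ^ ((lg + 1) * s * 2) := by rw [← pow_mul, ← pow_mul, mul_assoc]
    _ ≤ _ := by
        apply Nat.pow_le_pow_right (by norm_num)
        have h2 : s ≤ m' := by omega
        calc (lg + 1) * s * 2 = 2 * ((lg + 1) * s) := by ring
          _ ≤ 2 * ((lg + 1) * m') := by gcongr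
          _ = _ := by ring

open Classical in
/-- One network, positions. -/
theorem one {K V W : Type} [Fintype V] [Field K] [Fintype W] (k n b μ Δ D : ℕ)
    (hD : D = 2 ^ (60 * (k + 1))) (hb : n ≤ 64 * (b + 1)) (hnD : D ≤ n) (hμ : μ = n / D)
    (hΔ : vol b Δ ≤ 2 ^ (n / D)) (T : Net K V W) (a : W → K) (π : V → Option (Fin n))
    (X : Equiv.Perm (Fin n) → (Fin b → Bool) → (Fin b → Bool) → V → Bool)
    (c : Fin b × Fin 4 ↪ Fin n)
    (hX : ∀ ρ z z' y y' v, X ρ z z' v ≠ X ρ y y' v →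
      (∃ i, z i ≠ y i ∧ π v = some (ρ (c (i, 0)))) ∨
        (∃ i, z' i ≠ y' i ∧ π v = some (ρ (c (i, 2)))))
    (h2 : ∀ ρ z z', Δ < dst z z' →
      ¬ (T.value a (X ρ z z') ≠ 0 ∧ T.value a (X ρ z' z) ≠ 0))
    (hacc : 2 ^ b * n.factorial ≤ 2 ^ μ * (univ.filter
      (fun y : Equiv.Perm (Fin n) × (Fin b → Bool) => T.value a (X y.1 y.2 y.2) ≠ 0)).card)
    (hd : ∑ v with π v ≠ none, T.reads v ≤ k * n) :
    n ≤ D * (Nat.log 2 (Fintype.card W) + 1) := by
  obtain ⟨κ, hκ⟩ : ∃ κ, κ = 4 * (k + 1) := ⟨_, rfl⟩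
  obtain ⟨q, hq⟩ : ∃ q, q = 2 ^ (2 * κ + 9) := ⟨_, rfl⟩
  obtain ⟨t, ht⟩ : ∃ t, t = n / (128 * q) := ⟨_, rfl⟩
  obtain ⟨n₁, hn₁⟩ : ∃ n₁, n₁ = n / 8 := ⟨_, rfl⟩
  obtain ⟨h, hh⟩ : ∃ h, h = n₁ / (4 * κ) := ⟨_, rfl⟩
  have hq1 : 1 ≤ q := by rw [hq]; exact Nat.one_le_two_pow
  have hDbig : 2 ^ 20 * (k + 1) ≤ D := by
    have h3 : k + 1 ≤ 2 ^ k := Nat.lt_two_pow_self
    calc 2 ^ 20 * (k + 1) ≤ 2 ^ 20 * 2 ^ k := Nat.mul_le_mul_left _ h3
      _ = 2 ^ (20 + k) := (pow_add _ _ _).symm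
      _ ≤ D := by rw [hD]; exact Nat.pow_le_pow_right (by norm_num) (by omega)
  have hn20 : 2 ^ 20 * (k + 1) ≤ n := hDbig.trans hnD
  have hn1 : 1 ≤ n := by omega
  have hκ1 : 1 ≤ κ := by omega
  -- the positions which are read rarely
  obtain ⟨d, hdd⟩ : ∃ d : Fin n → ℕ, ∀ i, d i = ∑ v with π v = some i, T.reads v :=
    ⟨_, fun _ => rfl⟩
  have hdk : ∑ i, d i ≤ k * n := by
    refine le_trans (le_of_eq ?_) hd
    rw [← sum_fiberwise_of_maps_to (s := univ.filter (fun v => π v ≠ none))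
      (t := (univ : Finset (Option (Fin n)))) (g := π) (fun _ _ => mem_univ _)]
    rw [Fintype.sum_option]
    have h0 : ∑ v ∈ (univ.filter (fun v => π v ≠ none)).filter (fun v => π v = none),
        T.reads v = 0 := by
      apply sum_eq_zero
      intro v hv
      rw [mem_filter, mem_filter] at hv
      exact absurd hv.2 hv.1.2
    rw [h0, zero_add]
    refine sum_congr rfl (fun i _ => ?_)
    rw [hdd]
    refine sum_congr ?_ (fun _ _ => rfl)
    ext v
    rw [mem_filter, mem_filter, mem_filter]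
    constructor
    · rintro ⟨h3, h4⟩
      exact ⟨⟨h3, by rw [h4]; exact Option.some_ne_none i⟩, h4⟩
    · rintro ⟨⟨h3, -⟩, h4⟩
      exact ⟨h3, h4⟩
  obtain ⟨L, hL⟩ : ∃ L : Finset (Fin n), L = univ.filter (fun e => d e ≤ κ) := ⟨_, rfl⟩
  have hLc : n ≤ 2 * L.card := by
    have h3 : (univ.filter (fun e => ¬ d e ≤ κ)).card * (κ + 1) ≤ k * n := by
      refine le_trans ?_ hdk
      rw [← smul_eq_mul, ← sum_const]
      calc ∑ _e ∈ univ.filter (fun e => ¬ d e ≤ κ), (κ + 1) ≤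
          ∑ e ∈ univ.filter (fun e => ¬ d e ≤ κ), d e := by
            apply sum_le_sum
            intro e he
            have := (mem_filter.1 he).2
            omega
        _ ≤ _ := sum_le_sum_of_subset (subset_univ _)
    have h4 : L.card + (univ.filter (fun e => ¬ d e ≤ κ)).card = n := by
      rw [hL, card_filter_add_card_filter_not, card_univ, Fintype.card_fin]
    obtain ⟨Y, hY⟩ : ∃ Y, Y = (univ.filter (fun e => ¬ d e ≤ κ)).card := ⟨_, rfl⟩
    rw [← hY] at h3 h4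
    have h6 : 4 * Y ≤ n := by
      have h7 : (4 * Y) * (k + 1) ≤ n * (k + 1) := by
        calc (4 * Y) * (k + 1) ≤ Y * (κ + 1) := by rw [hκ]; nlinarith
          _ ≤ k * n := h3
          _ ≤ _ := by nlinarith
      exact Nat.le_of_mul_le_mul_right h7 (by omega)
    omega
  obtain ⟨e₀, he₀⟩ : ∃ e₀ : Fin n₁ ⊕ Fin n₁ ↪ Fin n, ∀ i, d (e₀ i) ≤ κ := by
    have h3 : Fintype.card (Fin n₁ ⊕ Fin n₁) ≤ Fintype.card L := by
      rw [Fintype.card_sum, Fintype.card_fin, Fintype.card_coe]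
      have : 8 * n₁ ≤ n := by rw [hn₁]; exact Nat.mul_div_le _ _
      omega
    obtain ⟨g⟩ := Function.Embedding.nonempty_of_card_le h3
    have hgL : ∀ e ∈ L, d e ≤ κ := by
      intro e he
      rw [hL, mem_filter] at he
      exact he.2
    exact ⟨g.trans (Function.Embedding.subtype _), fun i => hgL _ (g i).2⟩
  have hn₁2 : n < 8 * (n₁ + 1) := by rw [hn₁]; exact Nat.lt_mul_div_succ _ (by norm_num)
  have hn₁κ : 4 * κ ≤ n₁ := by omega
  have hh1 : 1 ≤ h := by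
    rw [hh]
    exact (Nat.one_le_div_iff (by omega)).2 hn₁κ
  have hhκ : 4 * κ * h ≤ n₁ := by rw [hh]; exact Nat.mul_div_le _ _
  have hnh : n₁ < 4 * κ * (h + 1) := by rw [hh]; exact Nat.lt_mul_div_succ n₁ (by omega)
  have htb : t ≤ b := by
    rw [ht]
    have h3 : n / (128 * q) ≤ n / 128 := Nat.div_le_div_left (by omega) (by norm_num)
    refine h3.trans ?_
    omega
  -- the pieces
  obtain ⟨Dv, hDv⟩ : ∃ Dv : Finset V, Dv = univ.filter (fun v => ∃ i, π v = some (e₀ i)) :=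
    ⟨_, rfl⟩
  obtain ⟨s, P, hPd, hPc, hPD, hPs, hPr⟩ := net_pd Dv hh1 T a
  have hsum : ∑ v ∈ Dv, T.reads v ≤ 2 * (n₁ * κ) := by
    have h3 : Dv = (univ : Finset (Fin n₁ ⊕ Fin n₁)).biUnion
        (fun i => univ.filter (fun v => π v = some (e₀ i))) := by
      ext v
      rw [hDv, mem_filter, mem_biUnion]
      constructor
      · rintro ⟨-, i, hi⟩
        exact ⟨i, mem_univ _, mem_filter.2 ⟨mem_univ _, hi⟩⟩
      · rintro ⟨i, -, hi⟩
        exact ⟨mem_univ _, i, (mem_filter.1 hi).2⟩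
    rw [h3, sum_biUnion (by
      intro i _ j _ hij
      rw [Function.onFun, disjoint_left]
      intro v hv hv'
      have h4 := (mem_filter.1 hv).2
      rw [(mem_filter.1 hv').2] at h4
      exact hij (e₀.injective (Option.some_injective _ h4)).symm)]
    calc ∑ i : Fin n₁ ⊕ Fin n₁, ∑ v with π v = some (e₀ i), T.reads v ≤
        ∑ _i : Fin n₁ ⊕ Fin n₁, κ := sum_le_sum (fun i _ => by rw [← hdd]; exact he₀ i)
      _ = 2 * (n₁ * κ) := by
          rw [sum_const, card_univ, Fintype.card_sum, Fintype.card_fin, smul_eq_mul]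
          ring
  have hs : s ≤ 256 * (k + 1) ^ 2 := by
    have h3 : s * (h + 1) ≤ 2 * (n₁ * κ) := hPs.trans hsum
    have h4 : s * n₁ ≤ 8 * κ ^ 2 * n₁ := by
      calc s * n₁ ≤ s * (4 * κ * (h + 1)) := Nat.mul_le_mul_left _ hnh.le
        _ = 4 * κ * (s * (h + 1)) := by ring
        _ ≤ 4 * κ * (2 * (n₁ * κ)) := Nat.mul_le_mul_left _ h3
        _ = 8 * κ ^ 2 * n₁ := by ring
    have h5 : s ≤ 8 * κ ^ 2 := Nat.le_of_mul_le_mul_right h4 (by omega)
    refine h5.trans ?_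
    rw [hκ]
    nlinarith
  obtain ⟨Vp, hVp⟩ : ∃ Vp : Fin (s + 1) → Finset (Fin n₁ ⊕ Fin n₁), ∀ j, Vp j =
      univ.filter (fun i => ∃ v ∈ P j, π v = some (e₀ i)) := ⟨_, fun _ => rfl⟩
  obtain ⟨col, hcol⟩ := exists_color (a := 2 * h) (κ := κ) Vp (by
      intro i
      refine le_trans ?_ (he₀ i)
      rw [hdd]
      calc (univ.filter (fun j => i ∈ Vp j)).card ≤
          ((univ.filter (fun v => π v = some (e₀ i))).biUnion
            (fun v => univ.filter (fun j => v ∈ P j))).card := by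
            apply card_le_card
            intro j hj
            rw [mem_filter, hVp, mem_filter] at hj
            obtain ⟨v, hv, hv'⟩ := hj.2.2
            rw [mem_biUnion]
            exact ⟨v, mem_filter.2 ⟨mem_univ _, hv'⟩, mem_filter.2 ⟨mem_univ _, hv⟩⟩
        _ ≤ ∑ v with π v = some (e₀ i), (univ.filter (fun j => v ∈ P j)).card := card_biUnion_le
        _ ≤ _ := sum_le_sum (fun v _ => hPr v)) (by
      intro j
      refine le_trans ?_ (hPc j)
      rw [hVp]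
      calc (univ.filter (fun i => ∃ v ∈ P j, π v = some (e₀ i))).card ≤
          ((P j).biUnion (fun v => univ.filter (fun i => π v = some (e₀ i)))).card := by
            apply card_le_card
            intro i hi
            obtain ⟨v, hv, hv'⟩ := (mem_filter.1 hi).2
            rw [mem_biUnion]
            exact ⟨v, hv, mem_filter.2 ⟨mem_univ _, hv'⟩⟩
        _ ≤ ∑ v ∈ P j, (univ.filter (fun i => π v = some (e₀ i))).card := card_biUnion_le
        _ ≤ ∑ _v ∈ P j, 1 := by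
            refine sum_le_sum fun v _ => ?_
            rw [card_le_one]
            intro i hi i' hi'
            have h3 := (mem_filter.1 hi).2
            rw [(mem_filter.1 hi').2] at h3
            exact e₀.injective (Option.some_injective _ h3).symm
        _ = (P j).card := by rw [sum_const, smul_eq_mul, mul_one]) (by
      calc 2 * (κ * (2 * h)) = 4 * κ * h := by ring
        _ ≤ n₁ := hhκ)
  -- the tuples
  obtain ⟨F, hF⟩ : ∃ F : Finset (Fin 4 → Fin n), F = univ.filter (fun τ =>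
      (∃ r, e₀ (.inl r) = τ 0 ∧ ∀ j, Sum.inl r ∈ Vp j → col j = true) ∧
      (∃ r, e₀ (.inr r) = τ 2 ∧ ∀ j, Sum.inr r ∈ Vp j → col j = false)) := ⟨_, rfl⟩
  have hFc : n ^ 2 * ((univ.filter (fun i : Fin n₁ => ∀ j, Sum.inl i ∈ Vp j → col j = true)).card *
      (univ.filter (fun i : Fin n₁ => ∀ j, Sum.inr i ∈ Vp j → col j = false)).card) ≤ F.card := by
    rw [← card_product]
    have h1 : n ^ 2 = (univ : Finset (Fin n × Fin n)).card := by
      rw [card_univ, Fintype.card_prod, Fintype.card_fin, sq]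
    rw [h1, ← card_product]
    refine card_le_card_of_injOn (fun r => ![e₀ (.inl r.2.1), r.1.1, e₀ (.inr r.2.2), r.1.2]) ?_ ?_
    · rintro ⟨⟨x, y⟩, r, r'⟩ h
      rw [mem_coe, mem_product, mem_product, mem_filter, mem_filter] at h
      rw [mem_coe, hF, mem_filter]
      exact ⟨mem_univ _, ⟨r, rfl, h.2.1.2⟩, ⟨r', rfl, h.2.2.2⟩⟩
    · rintro ⟨⟨x, y⟩, r, r'⟩ - ⟨⟨x', y'⟩, q, q'⟩ - h
      have h0 : e₀ (.inl r) = e₀ (.inl q) := congrFun h 0
      have h1 : x = x' := congrFun h 1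
      have h2 : e₀ (.inr r') = e₀ (.inr q') := congrFun h 2
      have h3 : y = y' := congrFun h 3
      have f1 := Sum.inl_injective (e₀.injective h0)
      have f2 := Sum.inr_injective (e₀.injective h2)
      rw [f1, f2, h1, h3]
  have hF4 : n ^ 4 ≤ q * F.card := by
    have hn16 : n ≤ 16 * n₁ := by omega
    calc n ^ 4 = n ^ 2 * (n * n) := by ring
      _ ≤ n ^ 2 * ((16 * n₁) * (16 * n₁)) :=
        Nat.mul_le_mul_left _ (Nat.mul_le_mul hn16 hn16)
      _ = 256 * n ^ 2 * (n₁ * n₁) := by ring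
      _ ≤ 256 * n ^ 2 * (2 ^ (2 * κ + 1) * _) := Nat.mul_le_mul_left _ hcol
      _ = 256 * 2 ^ (2 * κ + 1) * (n ^ 2 * _) := by ring
      _ ≤ 256 * 2 ^ (2 * κ + 1) * F.card := Nat.mul_le_mul_left _ hFc
      _ = q * F.card := by rw [hq]; ring
  have hfin := count (Δ := Δ) (μ := μ) (t := t) (q := q) hPd col X c
    (fun τ => {v | π v = some (τ 0)}) (fun τ => {v | π v = some (τ 2)}) (by
      intro ρ z z' y y' v hv
      exact hX ρ z z' y y' v hv) F (by
      intro τ hτ v hv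
      rw [hF, mem_filter] at hτ
      obtain ⟨r, hr1, hr2⟩ := hτ.2.1
      have hv' : π v = some (e₀ (.inl r)) := by rw [hr1]; exact hv
      refine ⟨?_, fun j hj => hr2 j ?_⟩
      · rw [hDv]
        exact mem_coe.2 (mem_filter.2 ⟨mem_univ _, _, hv'⟩)
      · rw [hVp, mem_filter]
        exact ⟨mem_univ _, v, hj, hv'⟩) (by
      intro τ hτ v hv
      rw [hF, mem_filter] at hτ
      obtain ⟨r, hr1, hr2⟩ := hτ.2.2
      have hv' : π v = some (e₀ (.inr r)) := by rw [hr1]; exact hv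
      refine ⟨?_, fun j hj => hr2 j ?_⟩
      · rw [hDv]
        exact mem_coe.2 (mem_filter.2 ⟨mem_univ _, _, hv'⟩)
      · rw [hVp, mem_filter]
        exact ⟨mem_univ _, v, hj, hv'⟩) hq1 hF4 hn1 (by
      rw [ht]; exact Nat.mul_div_le _ _) htb h2 hacc
  obtain ⟨m', hm'⟩ : ∃ m', m' = 512 * (k + 1) ^ 2 + 1 := ⟨_, rfl⟩
  have h3 : 2 ^ (t / (4 * q)) ≤
      2 ^ (2 * (n / D) + 2 * (Nat.log 2 (Fintype.card W) + 1) * m') := by
    refine hfin.trans ?_
    rw [hμ, two_mul (n / D), add_assoc, pow_add, pow_add]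
    exact Nat.mul_le_mul_left _ (Nat.mul_le_mul hΔ (pow_log_bound rfl hs hm'))
  have h4 := (Nat.pow_le_pow_iff_right (by norm_num)).1 h3
  refine arith2 (k := k) (q := q) (t := t) (m := m') ?_ ht hm' hD rfl h4
  rw [hq, hκ]; congr 1; ring

open Classical in
/-- **The bound**, for a random network; positions. -/
theorem final {V : Type} [Fintype V] {n b : ℕ} (k : ℕ) (hb : n ≤ 64 * (b + 1))
    (π : V → Option (Fin n))
    (X : Equiv.Perm (Fin n) → (Fin b → Bool) → (Fin b → Bool) → V → Bool)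
    (c : Fin b × Fin 4 ↪ Fin n)
    (hX : ∀ ρ z z' y y' v, X ρ z z' v ≠ X ρ y y' v →
      (∃ i, z i ≠ y i ∧ π v = some (ρ (c (i, 0)))) ∨
        (∃ i, z' i ≠ y' i ∧ π v = some (ρ (c (i, 2)))))
    (Q : Equiv.Perm (Fin n) → (Fin b → Bool) → (Fin b → Bool) → Prop) (Δ : ℕ)
    (hΔ : vol b Δ ≤ 2 ^ (n / 2 ^ (60 * (k + 1))))
    (h2 : ∀ ρ z z', Δ < dst z z' → ¬ (Q ρ z z' ∧ Q ρ z' z))
    (R : Type) [Fintype R] [Nonempty R] (K W : R → Type) [∀ r, Field (K r)]
    [∀ r, Fintype (W r)] (T : ∀ r, Net (K r) V (W r)) (a : ∀ r, W r → K r)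
    (hU : ∀ r ρ z z', (T r).value (a r) (X ρ z z') ≠ 0 → Q ρ z z')
    (hc : ∀ (ρ : Equiv.Perm (Fin n)) (z : Fin b → Bool),
      Nat.card R ≤ 2 ^ (n / 2 ^ (60 * (k + 1))) *
        Nat.card {r // (T r).value (a r) (X ρ z z) ≠ 0})
    (hd : ∀ r, ∑ v with π v ≠ none, (T r).reads v ≤ k * n) :
    ∃ r, n ≤ 2 ^ (60 * (k + 1)) * (Nat.log 2 (Fintype.card (W r)) + 1) := by
  obtain ⟨D, hD⟩ : ∃ D, D = 2 ^ (60 * (k + 1)) := ⟨_, rfl⟩
  rw [← hD] at hc hΔ ⊢
  rcases Nat.lt_or_ge n D with hnD | hnD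
  · obtain ⟨r⟩ := (inferInstance : Nonempty R)
    exact ⟨r, hnD.le.trans (Nat.le_mul_of_pos_right _ (by omega))⟩
  obtain ⟨r, hr⟩ := Pool.Agent.H538R4.SP.average
    (fun _ : Equiv.Perm (Fin n) × (Fin b → Bool) => True)
    (fun r y => (T r).value (a r) (X y.1 y.2 y.2) ≠ 0) (n / D) (by
      rintro ⟨ρ, z⟩ -
      exact hc ρ z)
  refine ⟨r, ?_⟩
  have hacc : 2 ^ b * n.factorial ≤ 2 ^ (n / D) * (univ.filter
      (fun y : Equiv.Perm (Fin n) × (Fin b → Bool) =>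
        (T r).value (a r) (X y.1 y.2 y.2) ≠ 0)).card := by
    have e1 : Nat.card {x : Equiv.Perm (Fin n) × (Fin b → Bool) // True} =
        2 ^ b * n.factorial := by
      rw [Nat.card_eq_fintype_card, Fintype.card_subtype_true, Fintype.card_prod,
        Fintype.card_perm, Fintype.card_fin, Fintype.card_fun, Fintype.card_bool,
        Fintype.card_fin, mul_comm]
    rw [e1] at hr
    refine hr.trans (Nat.mul_le_mul_left _ (le_of_eq ?_))
    rw [Nat.card_eq_fintype_card, Fintype.card_subtype]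
  exact one k n b (n / D) Δ D hD hb hnD rfl hΔ (T r) (a r) π X c hX
    (fun ρ z z' hz h => h2 ρ z z' hz ⟨hU r ρ z z' h.1, hU r ρ z' z h.2⟩)
    (by convert hacc) (by convert hd r)

theorem grS_diff {n b : ℕ} {ν : Bool} {c : Fin b × Fin 4 → Fin n} {z z' y y' : Fin b → Bool}
    {e : Fin n} (h : grS ν c z z' e ≠ grS ν c y y' e) :
    (∃ i, c (i, 0) = e ∧ z i ≠ y i) ∨ (∃ i, c (i, 2) = e ∧ z' i ≠ y' i) := by
  have h1 : inS ν (id : Fin n → Fin n) (fun _ _ => false) c 1 z z' e ≠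
      inS ν (id : Fin n → Fin n) (fun _ _ => false) c 1 y y' e := by
    unfold inS
    rw [show e = id e from rfl, Pool.Agent.W896.HP.fill_apply Function.injective_id,
      Pool.Agent.W896.HP.fill_apply Function.injective_id]
    exact h
  rcases inS_diff h1 with ⟨i, h2, h3⟩ | ⟨i, h2, h3⟩
  · exact Or.inl ⟨i, h2, h3⟩
  · exact Or.inr ⟨i, h2, h3⟩

theorem inI_diff {V : Type} {n b : ℕ} {ν : Bool} {π : V → Option (Fin n)}
    {b₀ : Equiv.Perm (Fin n) → V → Bool} {c : Fin b × Fin 4 → Fin n} {ρ : Equiv.Perm (Fin n)}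
    {z z' y y' : Fin b → Bool} {v : V} (h : inI ν π b₀ c ρ z z' v ≠ inI ν π b₀ c ρ y y' v) :
    (∃ i, z i ≠ y i ∧ π v = some (ρ (c (i, 0)))) ∨
      (∃ i, z' i ≠ y' i ∧ π v = some (ρ (c (i, 2)))) := by
  unfold inI at h
  cases hv : π v with
  | none =>
    rw [hv] at h
    exact absurd rfl h
  | some e =>
    rw [hv] at h
    simp only at h
    rcases grS_diff h with ⟨i, h2, h3⟩ | ⟨i, h2, h3⟩
    · exact Or.inl ⟨i, h3, by rw [h2, Equiv.apply_symm_apply]⟩
    · exact Or.inr ⟨i, h3, by rw [h2, Equiv.apply_symm_apply]⟩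

theorem inJ_diff {V : Type} {n b : ℕ} {ν : Bool} {π : V → Option (Fin n)} {sg : V → Bool}
    {b₀ : Equiv.Perm (Fin n) → V → Bool} {c : Fin b × Fin 4 → Fin n} {ρ : Equiv.Perm (Fin n)}
    {z z' y y' : Fin b → Bool} {v : V}
    (h : inJ ν π sg b₀ c ρ z z' v ≠ inJ ν π sg b₀ c ρ y y' v) :
    (∃ i, z i ≠ y i ∧ π v = some (ρ (c (i, 0)))) ∨
      (∃ i, z' i ≠ y' i ∧ π v = some (ρ (c (i, 2)))) := by
  unfold inJ at h
  refine inI_diff (ν := ν) (b₀ := fun ρ v => xor (sg v) (b₀ ρ v)) (fun h' => h ?_)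
  rw [h']

end Pool.Agent.V11163.NT
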