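import Pool.Agent.TH700.TN.Defs

/-!
# Every function has a network in which the bits of a given set are read once
-/

set_option autoImplicit false

open Finset

namespace Pool.Agent.V11163.NT

open Pool.Agent.TH700.TN

variable {K V L : Type} [Field K] [Fintype L] [DecidableEq L]

/-- The pointwise product. -/
def cP (i j k : Option L) : K := if i = k ∧ j = k then 1 else 0

/-- The sum; the coordinate `none` is one. -/
def cS (i j k : Option L) : K := if (i = k ∧ j = none) ∨ (i = none ∧ j = k) then 1 else 0

theorem eval_P (l r : Net K V (Option L)) (x : V → Bool) (k : Option L) :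
    (Net.node l r cP).eval x k = l.eval x k * r.eval x k := by
  show ∑ i, ∑ j, cP i j k * (l.eval x i * r.eval x j) = _
  rw [Finset.sum_eq_single k]
  · rw [Finset.sum_eq_single k]
    · unfold cP
      rw [if_pos ⟨rfl, rfl⟩, one_mul]
    · intro j _ hj
      unfold cP
      rw [if_neg (fun h => hj h.2), zero_mul]
    · intro h
      exact absurd (mem_univ _) h
  · intro i _ hi
    refine Finset.sum_eq_zero fun j _ => ?_
    unfold cP
    rw [if_neg (fun h => hi h.1), zero_mul]
  · intro h
    exact absurd (mem_univ _) h

theorem eval_S_none (l r : Net K V (Option L)) (x : V → Bool) :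
    (Net.node l r cS).eval x none = l.eval x none * r.eval x none := by
  show ∑ i, ∑ j, cS i j none * (l.eval x i * r.eval x j) = _
  rw [Finset.sum_eq_single none]
  · rw [Finset.sum_eq_single none]
    · unfold cS
      rw [if_pos (Or.inl ⟨rfl, rfl⟩), one_mul]
    · intro j _ hj
      unfold cS
      rw [if_neg (fun h => h.elim (fun h => hj h.2) (fun h => hj h.2)), zero_mul]
    · intro h
      exact absurd (mem_univ _) h
  · intro i _ hi
    refine Finset.sum_eq_zero fun j _ => ?_
    unfold cS
    rw [if_neg (fun h => h.elim (fun h => hi h.1) (fun h => hi h.1)), zero_mul]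
  · intro h
    exact absurd (mem_univ _) h

theorem eval_S_some (l r : Net K V (Option L)) (x : V → Bool) (k : L) :
    (Net.node l r cS).eval x (some k) =
      l.eval x (some k) * r.eval x none + l.eval x none * r.eval x (some k) := by
  show ∑ i, ∑ j, cS i j (some k) * (l.eval x i * r.eval x j) = _
  rw [Fintype.sum_option]
  have h1 : ∑ j, cS none j (some k) * (l.eval x none * r.eval x j) =
      l.eval x none * r.eval x (some k) := by
    rw [Finset.sum_eq_single (some k)]
    · unfold cS
      rw [if_pos (Or.inr ⟨rfl, rfl⟩), one_mul]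
    · intro j _ hj
      unfold cS
      rw [if_neg (fun h => h.elim (fun h => by cases h.1) (fun h => hj h.2)), zero_mul]
    · intro h
      exact absurd (mem_univ _) h
  have h2 : ∑ i : L, ∑ j, cS (some i) j (some k) * (l.eval x (some i) * r.eval x j) =
      l.eval x (some k) * r.eval x none := by
    rw [Finset.sum_eq_single k]
    · rw [Finset.sum_eq_single none]
      · unfold cS
        rw [if_pos (Or.inl ⟨rfl, rfl⟩), one_mul]
      · intro j _ hj
        unfold cS
        rw [if_neg (fun h => h.elim (fun h => hj h.2) (fun h => by cases h.1)), zero_mul]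
      · intro h
        exact absurd (mem_univ _) h
    · intro i _ hi
      refine Finset.sum_eq_zero fun j _ => ?_
      unfold cS
      rw [if_neg (fun h => h.elim (fun h => hi (Option.some_injective _ h.1))
        (fun h => by cases h.1)), zero_mul]
    · intro h
      exact absurd (mem_univ _) h
  rw [h1, h2, add_comm]

/-- A product of leaves. -/
theorem exists_prod {ι : Type} (s : Finset ι) (hs : s.Nonempty) (v : ι → V)
    (g : ι → Bool → L → K) : ∃ T : Net K V (Option L),
      (∀ x, T.eval x none = 1) ∧ (∀ x k, T.eval x (some k) = ∏ i ∈ s, g i (x (v i)) k) ∧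
      ∀ u, T.reads u = ∑ i ∈ s, (Net.leaf (v i) (fun _ _ => 0) : Net K V (Option L)).reads u := by
  classical
  induction hs using Finset.Nonempty.cons_induction with
  | singleton i =>
    refine ⟨Net.leaf (v i) (fun b k => k.elim 1 (g i b)), fun x => rfl, fun x k => ?_, fun u => ?_⟩
    · rw [prod_singleton]
      rfl
    · rw [sum_singleton]
      rfl
  | cons i s hi hs ih =>
    obtain ⟨T, h1, h2, h3⟩ := ih
    refine ⟨Net.node (Net.leaf (v i) (fun b k => k.elim 1 (g i b))) T cP, fun x => ?_,
      fun x k => ?_, fun u => ?_⟩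
    · rw [eval_P, h1, mul_one]
      rfl
    · rw [eval_P, h2, prod_cons]
      rfl
    · rw [sum_cons, ← h3]
      rfl

/-- A sum of networks. -/
theorem exists_sum {ι : Type} (s : Finset ι) (hs : s.Nonempty) (T : ι → Net K V (Option L))
    (hT : ∀ i x, (T i).eval x none = 1) : ∃ N : Net K V (Option L),
      (∀ x, N.eval x none = 1) ∧ (∀ x k, N.eval x (some k) = ∑ i ∈ s, (T i).eval x (some k)) ∧
      ∀ u, N.reads u = ∑ i ∈ s, (T i).reads u := by
  classical
  induction hs using Finset.Nonempty.cons_induction with
  | singleton i => exact ⟨T i, hT i, fun x k => by rw [sum_singleton], fun u => by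
      rw [sum_singleton]⟩
  | cons i s hi hs ih =>
    obtain ⟨N, h1, h2, h3⟩ := ih
    refine ⟨Net.node (T i) N cS, fun x => ?_, fun x k => ?_, fun u => ?_⟩
    · rw [eval_S_none, h1, hT, mul_one]
    · rw [eval_S_some, h1, h2, hT, mul_one, one_mul, sum_cons]
    · rw [sum_cons, ← h3]
      rfl

/-- **Every function has a network of bond dimension `2 ^ |S| + 1` in which the bits of the set `S`
are read once.** -/
theorem exists_net (K : Type) [Field K] {V : Type} [Fintype V] [DecidableEq V] (S : Finset V)
    (hS : S.Nonempty) (hS' : ∃ v, v ∉ S) (f : (V → Bool) → Prop) :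
    ∃ (W : Type) (_ : Fintype W) (T : Net K V W) (a : W → K),
      Fintype.card W = 2 ^ S.card + 1 ∧ (∀ v ∈ S, T.reads v = 1) ∧
        ∀ x, T.value a x ≠ 0 ↔ f x := by
  classical
  obtain ⟨v₀, hv₀⟩ := hS'
  -- the bits of `S`
  obtain ⟨A, hA1, hA2, hA3⟩ := exists_prod (K := K) (L := (S → Bool)) (univ : Finset S)
    (by
      obtain ⟨v, hv⟩ := hS
      exact ⟨⟨v, hv⟩, mem_univ _⟩) (fun i => i.1)
    (fun i b l => if l i = b then 1 else 0)
  have hA4 : ∀ x l, A.eval x (some l) = if l = (fun i : S => x i.1) then 1 else 0 := by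
    intro x l
    rw [hA2]
    by_cases h : l = (fun i : S => x i.1)
    · rw [if_pos h]
      refine prod_eq_one fun i _ => ?_
      rw [if_pos (congrFun h i)]
    · rw [if_neg h]
      obtain ⟨i, hi⟩ := Function.ne_iff.1 h
      exact prod_eq_zero (mem_univ i) (if_neg hi)
  -- the other bits
  have hB : ∀ y : {v // v ∉ S} → Bool, ∃ B : Net K V (Option (S → Bool)),
      (∀ x, B.eval x none = 1) ∧ (∀ x l, B.eval x (some l) =
        if y = (fun i => x i.1) then
          (if f (fun v => if h : v ∈ S then l ⟨v, h⟩ else y ⟨v, h⟩) then 1 else 0) else 0) ∧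
      ∀ u ∈ S, B.reads u = 0 := by
    intro y
    obtain ⟨B, hB1, hB2, hB3⟩ := exists_prod (K := K) (L := (S → Bool))
      (univ : Finset {v // v ∉ S}) ⟨⟨v₀, hv₀⟩, mem_univ _⟩ (fun i => i.1)
      (fun i b l => if y i = b then
        (if f (fun v => if h : v ∈ S then l ⟨v, h⟩ else y ⟨v, h⟩) then 1 else 0) else 0)
    refine ⟨B, hB1, fun x l => ?_, fun u hu => ?_⟩
    · rw [hB2]
      by_cases h : y = (fun i => x i.1)
      · rw [if_pos h]
        have h1 : ∀ i : {v // v ∉ S}, y i = x i.1 := fun i => congrFun h i
        by_cases hf : f (fun v => if h : v ∈ S then l ⟨v, h⟩ else y ⟨v, h⟩)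
        · rw [if_pos hf]
          refine prod_eq_one fun i _ => ?_
          rw [if_pos (h1 i)]
        · rw [if_neg hf]
          refine prod_eq_zero (mem_univ (⟨v₀, hv₀⟩ : {v // v ∉ S})) ?_
          rw [if_pos (h1 _)]
      · rw [if_neg h]
        obtain ⟨i, hi⟩ := Function.ne_iff.1 h
        exact prod_eq_zero (mem_univ i) (if_neg hi)
    · rw [hB3]
      refine sum_eq_zero fun i _ => ?_
      unfold Net.reads
      rw [if_neg]
      intro h
      exact i.2 (h ▸ hu)
  choose B hB1 hB2 hB3 using hB
  obtain ⟨C, hC1, hC2, hC3⟩ := exists_sum (univ : Finset ({v // v ∉ S} → Bool)) univ_nonempty B hB1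
  have hC4 : ∀ x l, C.eval x (some l) =
      if f (fun v => if h : v ∈ S then l ⟨v, h⟩ else x v) then 1 else 0 := by
    intro x l
    rw [hC2]
    rw [Finset.sum_eq_single (fun i => x i.1)]
    · rw [hB2, if_pos rfl]
    · intro y _ hy
      rw [hB2, if_neg hy]
    · intro h
      exact absurd (mem_univ _) h
  refine ⟨Option (S → Bool), inferInstance, Net.node A C cP, fun k => k.elim 0 (fun _ => 1), ?_,
    ?_, ?_⟩
  · rw [Fintype.card_option, Fintype.card_fun, Fintype.card_bool, Fintype.card_coe]
  · intro v hv
    show A.reads v + C.reads v = 1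
    rw [hA3, hC3, Finset.sum_eq_zero (fun y _ => hB3 y v hv), add_zero,
      Finset.sum_eq_single (⟨v, hv⟩ : S)]
    · unfold Net.reads
      rw [if_pos rfl]
    · intro i _ hi
      unfold Net.reads
      rw [if_neg]
      intro h
      exact hi (Subtype.ext h)
    · intro h
      exact absurd (mem_univ _) h
  · intro x
    have h1 : (Net.node A C cP).value (fun k => k.elim 0 (fun _ => (1 : K))) x =
        if f x then 1 else 0 := by
      unfold Net.value
      rw [Fintype.sum_option]
      simp only [Option.elim_none, Option.elim_some, zero_mul, one_mul, zero_add]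
      rw [Finset.sum_eq_single (fun i : S => x i.1)]
      · rw [eval_P, hA4, if_pos rfl, one_mul, hC4]
        have h2 : (fun v => if h : v ∈ S then x v else x v) = x := by
          funext v
          split_ifs <;> rfl
        congr 1
        exact congrArg f h2
      · intro l _ hl
        rw [eval_P, hA4, if_neg hl, zero_mul]
      · intro h
        exact absurd (mem_univ _) h
    rw [h1]
    split_ifs with h
    · exact ⟨fun _ => h, fun _ => one_ne_zero⟩
    · exact ⟨fun h' => absurd rfl h', fun h' => absurd h' h⟩

end Pool.Agent.V11163.NT
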