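import Pool.Agent.W896.FD.OV
import Pool.Agent.V11163.NT.Fin
import Pool.Agent.V11163.NT.Upper
import Pool.Agent.V11163.NT.Asym

/-!
# Distances and tree tensor networks with many reads
-/

set_option autoImplicit false
set_option exponentiation.threshold 1000

open Finset

namespace Pool.Agent.V11163.NT.AP

open Pool.Agent.TH700.TN Pool.Agent.V11163.NT
open Pool.Agent.W896.RK Pool.Agent.W896.HP Pool.Agent.W896.FD Pool.Agent.W896.FD.Star
open Pool.Agent.W896.FD.Tri (Mt mt_unique mt_symm grS_0 grS_2)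

variable {n m b w : ℕ}

/-- The bits of a weighted directed graph: `((u, v), none)` says whether there is an edge from `u` to
`v`, and `((u, v), some j)` is the digit of its weight with the value `2 ^ j`. -/
abbrev Bt (n w : ℕ) : Type := (Fin n × Fin n) × Option (Fin (w + 2))

/-- The weight of the edge from `u` to `v`. -/
def wt (x : Bt n w → Bool) (u v : Fin n) : ℕ := Nat.ofBits (fun j => x ((u, v), some j))

/-- There is a walk from `s` to the given vertex with the given total weight. -/
inductive Walk (x : Bt n w → Bool) (s : Fin n) : Fin n → ℕ → Prop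
  | nil : Walk x s s 0
  | step {u v : Fin n} {c : ℕ} : Walk x s u c → x ((u, v), none) = true →
      Walk x s v (c + wt x u v)

/-- The distance from `s` to `t` is at least `D`: every walk from `s` to `t` has weight at least
`D`. -/
def Far (x : Bt n w → Bool) (s t : Fin n) (D : ℕ) : Prop := ∀ c, Walk x s t c → D ≤ c

/-- The distance from `s` to `t` is `D`. -/
def Dist (x : Bt n w → Bool) (s t : Fin n) (D : ℕ) : Prop := Walk x s t D ∧ Far x s t D

/-- All weights are between `1` and `L`. -/
def Valid (L : ℕ) (x : Bt n w → Bool) : Prop :=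
  ∀ u v, x ((u, v), none) = true → 1 ≤ wt x u v ∧ wt x u v ≤ L

/-- Potentials are lower bounds for distances. -/
theorem Walk.le {x : Bt n w → Bool} {s : Fin n} (φ : Fin n → ℕ) (h0 : φ s = 0)
    (h : ∀ u v, x ((u, v), none) = true → φ v ≤ φ u + wt x u v) {v : Fin n} {c : ℕ}
    (hw : Walk x s v c) : φ v ≤ c := by
  induction hw with
  | nil => exact h0.le
  | step _ he ih => exact (h _ _ he).trans (Nat.add_le_add_right ih _)

/-! ### The instance -/

/-- The edges. -/
def EdgeP (f : Bool × Fin m → Fin n) (s t : Fin n) (c : Fin b × Fin 4 → Fin m)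
    (ρ : Equiv.Perm (Fin m)) (u v : Fin n) : Prop :=
  (u = s ∧ ∃ e, f (false, e) = v) ∨ (v = t ∧ ∃ e, f (true, e) = u) ∨
    ∃ e e', Mt c ρ e e' ∧ f (false, e) = u ∧ f (true, e') = v

/-- The free bits. -/
noncomputable def frA (f : Bool × Fin m → Fin n) (s t : Fin n) (v : Bt n w) : Option (Fin m) :=
  match v.2 with
  | none => none
  | some j => if j = 0 then
      (if v.1.1 = s then idx (fun e => f (false, e)) v.1.2 else
        if v.1.2 = t then idx (fun e => f (true, e)) v.1.1 else none)
      else none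

open Classical in
/-- The fixed bits. -/
noncomputable def tbA (f : Bool × Fin m → Fin n) (s t : Fin n) (c : Fin b × Fin 4 → Fin m)
    (ρ : Equiv.Perm (Fin m)) (v : Bt n w) : Bool :=
  match v.2 with
  | none => decide (EdgeP f s t c ρ v.1.1 v.1.2)
  | some j => if v.1.1 = s ∨ v.1.2 = t then decide (j.val = 1) else decide (j.val = 0)

/-- The instance. -/
noncomputable def instA (w : ℕ) (f : Bool × Fin m → Fin n) (s t : Fin n)
    (c : Fin b × Fin 4 → Fin m) (ρ : Equiv.Perm (Fin m)) (z z' : Fin b → Bool) :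
    Bt n w → Bool :=
  inI true (frA f s t) (fun ρ => tbA f s t c ρ) c ρ z z'

theorem one_testBit (j : ℕ) : Nat.testBit 1 j = decide (j = 0) := by
  rw [Bool.eq_iff_iff, decide_eq_true_iff]
  exact Nat.testBit_one_eq_true_iff_self_eq_zero

section

variable {f : Bool × Fin m ↪ Fin n} {s t : Fin n} (hs : ∀ y, f y ≠ s) (ht : ∀ y, f y ≠ t)
  (c : Fin b × Fin 4 ↪ Fin m) (ρ : Equiv.Perm (Fin m)) (z z' : Fin b → Bool)

theorem instA_none (u v : Fin n) :
    instA w f s t c ρ z z' ((u, v), none) = true ↔ EdgeP f s t c ρ u v := by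
  classical
  unfold instA inI frA tbA
  exact decide_eq_true_iff

theorem inj_f (s : Bool) : Function.Injective (fun e => f (s, e)) := fun e e' h => by
  have := f.injective h
  exact congrArg Prod.snd this

/-- The weights of the edges at `s`. -/
theorem wt_s (e : Fin m) : wt (instA w f s t c ρ z z') s (f (false, e)) =
    2 + (grS true c z z' (ρ.symm e)).toNat := by
  unfold wt
  have h : (fun j => instA w f s t c ρ z z' ((s, f (false, e)), some j)) =
      fun j : Fin (w + 2) => (Nat.bit (grS true c z z' (ρ.symm e)) 1).testBit j.val := by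
    funext j
    unfold instA inI frA tbA
    by_cases hj : j = 0
    · simp only [hj, if_true]
      have h1 : idx (fun e => f (false, e)) (f (false, e)) = some e :=
        idx_apply (inj_f false) e
      rw [h1]
      simp only [Fin.val_zero, Nat.testBit_bit_zero]
    · obtain ⟨j', hj'⟩ : ∃ j', j.val = j' + 1 := by
        refine ⟨j.val - 1, ?_⟩
        have : j.val ≠ 0 := fun h => hj (Fin.ext h)
        omega
      simp only [hj, if_false, true_or, if_true]
      rw [hj', Nat.testBit_bit_succ, one_testBit]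
      simp
  rw [h, Nat.ofBits_testBit, Nat.mod_eq_of_lt]
  · rw [Nat.bit_val]
  · rw [Nat.bit_val]
    have := Bool.toNat_le (grS true c z z' (ρ.symm e))
    have h2 : 2 ^ (w + 2) = 4 * 2 ^ w := by rw [pow_add]; ring
    have := Nat.one_le_two_pow (n := w)
    omega

include hs in
/-- The weights of the edges at `t`. -/
theorem wt_t (e : Fin m) : wt (instA w f s t c ρ z z') (f (true, e)) t =
    2 + (grS true c z z' (ρ.symm e)).toNat := by
  unfold wt
  have h : (fun j => instA w f s t c ρ z z' ((f (true, e), t), some j)) =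
      fun j : Fin (w + 2) => (Nat.bit (grS true c z z' (ρ.symm e)) 1).testBit j.val := by
    funext j
    unfold instA inI frA tbA
    by_cases hj : j = 0
    · simp only [hj, if_true, if_neg (hs (true, e))]
      have h1 : idx (fun e => f (true, e)) (f (true, e)) = some e :=
        idx_apply (inj_f true) e
      rw [h1]
      simp only [Fin.val_zero, Nat.testBit_bit_zero]
    · obtain ⟨j', hj'⟩ : ∃ j', j.val = j' + 1 := by
        refine ⟨j.val - 1, ?_⟩
        have : j.val ≠ 0 := fun h => hj (Fin.ext h)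
        omega
      simp only [hj, if_false, or_true, if_true]
      rw [hj', Nat.testBit_bit_succ, one_testBit]
      simp
  rw [h, Nat.ofBits_testBit, Nat.mod_eq_of_lt]
  · rw [Nat.bit_val]
  · rw [Nat.bit_val]
    have := Bool.toNat_le (grS true c z z' (ρ.symm e))
    have h2 : 2 ^ (w + 2) = 4 * 2 ^ w := by rw [pow_add]; ring
    have := Nat.one_le_two_pow (n := w)
    omega

/-- The other weights. -/
theorem wt_o {u v : Fin n} (hu : u ≠ s) (hv : v ≠ t) :
    wt (instA w f s t c ρ z z') u v = 1 := by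
  unfold wt
  have h : (fun j => instA w f s t c ρ z z' ((u, v), some j)) =
      fun j : Fin (w + 2) => (1 : ℕ).testBit j.val := by
    funext j
    have h1 : ¬ (u = s ∨ v = t) := by
      rintro (h | h)
      · exact hu h
      · exact hv h
    unfold instA inI frA tbA
    rw [one_testBit]
    simp only [if_neg hu, if_neg hv, if_neg h1, ite_self]
  rw [h, Nat.ofBits_testBit, Nat.mod_eq_of_lt]
  have h2 : 2 ^ (w + 2) = 4 * 2 ^ w := by rw [pow_add]; ring
  have := Nat.one_le_two_pow (n := w)
  omega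

include hs ht in
theorem validA {L : ℕ} (hL : 3 ≤ L) : Valid L (instA w f s t c ρ z z') := by
  intro u v h
  rw [instA_none] at h
  rcases h with ⟨rfl, e, rfl⟩ | ⟨rfl, e, rfl⟩ | ⟨e, e', -, rfl, rfl⟩
  · rw [wt_s]
    have := Bool.toNat_le (grS true c z z' (ρ.symm e))
    omega
  · rw [wt_t hs]
    have := Bool.toNat_le (grS true c z z' (ρ.symm e))
    omega
  · rw [wt_o c ρ z z' (hs _) (ht _)]
    omega

include hs ht in
/-- A walk along a pair. -/
theorem walkA (i : Fin b) : Walk (instA w f s t c ρ z z') s t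
    (5 + (z i).toNat + (!z' i).toNat) := by
  have hm : Mt c ρ (ρ (c (i, 0))) (ρ (c (i, 2))) := ⟨i, Or.inl ⟨rfl, rfl⟩⟩
  have w0 : Walk (instA w f s t c ρ z z') s s 0 := Walk.nil
  have w1 := w0.step (v := f (false, ρ (c (i, 0)))) (by
    rw [instA_none]
    exact Or.inl ⟨rfl, _, rfl⟩)
  have w2 := w1.step (v := f (true, ρ (c (i, 2)))) (by
    rw [instA_none]
    exact Or.inr (Or.inr ⟨_, _, hm, rfl, rfl⟩))
  have w3 := w2.step (v := t) (by
    rw [instA_none]
    exact Or.inr (Or.inl ⟨rfl, _, rfl⟩))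
  rw [wt_s, wt_t hs, wt_o c ρ z z' (hs _) (ht _), Equiv.symm_apply_apply,
    Equiv.symm_apply_apply, grS_0, grS_2] at w3
  convert w3 using 1
  omega

include hs ht in
/-- The potentials. -/
theorem potA (hst : s ≠ t) (D : ℕ) (α β : Fin m → ℕ)
    (h1 : ∀ e, α e ≤ 2 + (grS true c z z' (ρ.symm e)).toNat)
    (h2 : ∀ e, D ≤ β e + 2 + (grS true c z z' (ρ.symm e)).toNat)
    (h3 : ∀ e e', Mt c ρ e e' → β e' ≤ α e + 1) : Far (instA w f s t c ρ z z') s t D := by
  classical
  obtain ⟨φ, hφ⟩ : ∃ φ : Fin n → ℕ, ∀ y, φ y = if y = t then D else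
      match idx (fun e => f (false, e)) y with
      | some e => α e
      | none => match idx (fun e => f (true, e)) y with
        | some e => β e
        | none => 0 := ⟨_, fun _ => rfl⟩
  have hφt : φ t = D := by rw [hφ, if_pos rfl]
  have hφs : φ s = 0 := by
    rw [hφ, if_neg hst, idx_none (fun e => hs _), idx_none (fun e => hs _)]
  have hφa : ∀ e, φ (f (false, e)) = α e := by
    intro e
    have h1 : idx (fun e => f (false, e)) (f (false, e)) = some e := idx_apply (inj_f false) e
    rw [hφ, if_neg (ht _), h1]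
  have hφb : ∀ e, φ (f (true, e)) = β e := by
    intro e
    have h1 : idx (fun e => f (true, e)) (f (true, e)) = some e := idx_apply (inj_f true) e
    have h2 : idx (fun e => f (false, e)) (f (true, e)) = none := by
      apply idx_none
      intro e' h
      have := congrArg Prod.fst (f.injective h)
      exact Bool.noConfusion this
    rw [hφ, if_neg (ht _), h2]
    simp only [h1]
  intro c' hw
  rw [← hφt]
  refine hw.le φ hφs (fun u v h => ?_)
  rw [instA_none] at h
  rcases h with ⟨rfl, e, rfl⟩ | ⟨rfl, e, rfl⟩ | ⟨e, e', hm, rfl, rfl⟩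
  · rw [wt_s, hφa, hφs, zero_add]
    exact h1 e
  · rw [wt_t hs, hφt, hφb, ← add_assoc]
    exact h2 e
  · rw [wt_o c ρ z z' (hs _) (ht _), hφa, hφb]
    exact h3 e e' hm

include hs ht in
/-- Different states: the distance is five. -/
theorem nearA (hst : s ≠ t) {i : Fin b} (hz : z i = false) (hz' : z' i = true) :
    Dist (instA w f s t c ρ z z') s t 5 := by
  refine ⟨?_, ?_⟩
  · have := walkA (w := w) hs ht c ρ z z' i
    rwa [hz, hz'] at this
  · refine potA hs ht c ρ z z' hst 5 (fun _ => 2) (fun _ => 3) (fun e => Nat.le_add_right _ _)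
      (fun e => Nat.le_add_right _ _) (fun e e' _ => le_refl _)

include hs ht in
/-- Equal states: the distance is six. -/
theorem farA (hst : s ≠ t) (i : Fin b) : Dist (instA w f s t c ρ z z) s t 6 := by
  refine ⟨?_, ?_⟩
  · have := walkA (w := w) hs ht c ρ z z i
    cases hz : z i <;> rwa [hz] at this
  · refine potA hs ht c ρ z z hst 6 (fun e => 2 + (grS true c z z (ρ.symm e)).toNat)
      (fun e => 4 - (grS true c z z (ρ.symm e)).toNat) (fun e => le_refl _)
      (fun e => ?_) (fun e e' hm => ?_)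
    · have := Bool.toNat_le (grS true c z z (ρ.symm e))
      omega
    · have h1 : (grS true c z z (ρ.symm e)).toNat + (grS true c z z (ρ.symm e')).toNat = 1 := by
        obtain ⟨i, ⟨e1, e2⟩ | ⟨e1, e2⟩⟩ := hm
        · rw [e1, e2, Equiv.symm_apply_apply, Equiv.symm_apply_apply, grS_0, grS_2]
          cases z i <;> rfl
        · rw [e1, e2, Equiv.symm_apply_apply, Equiv.symm_apply_apply, grS_0, grS_2]
          cases z i <;> rfl
      omega

end

theorem sum_frA {f : Bool × Fin m ↪ Fin n} {s t : Fin n} (g : Bt n w → ℕ) :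
    ∑ v with frA (w := w) f s t v ≠ none, g v ≤
      ∑ v, g ((s, v), some 0) + ∑ v, g ((v, t), some 0) := by
  classical
  calc ∑ v with frA (w := w) f s t v ≠ none, g v ≤
      ∑ v ∈ (univ : Finset (Fin n)).image (fun v => (((s, v), some 0) : Bt n w)) ∪
        (univ : Finset (Fin n)).image (fun v => (((v, t), some 0) : Bt n w)), g v := by
        apply sum_le_sum_of_subset
        rintro ⟨⟨u, v⟩, j⟩ hv
        rw [mem_filter] at hv
        have h1 := hv.2
        unfold frA at h1
        rw [mem_union, mem_image, mem_image]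
        cases j with
        | none => exact absurd rfl h1
        | some j =>
          simp only at h1
          by_cases hj : j = 0
          · rw [if_pos hj] at h1
            by_cases hu : u = s
            · exact Or.inl ⟨v, mem_univ _, by rw [hu, hj]⟩
            · rw [if_neg hu] at h1
              by_cases hv : v = t
              · exact Or.inr ⟨u, mem_univ _, by rw [hv, hj]⟩
              · rw [if_neg hv] at h1
                exact absurd rfl h1
          · rw [if_neg hj] at h1
            exact absurd rfl h1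
    _ ≤ ∑ v ∈ (univ : Finset (Fin n)).image (fun v => (((s, v), some 0) : Bt n w)), g v +
        ∑ v ∈ (univ : Finset (Fin n)).image (fun v => (((v, t), some 0) : Bt n w)), g v := by
        rw [← sum_union_inter]
        exact Nat.le_add_right _ _
    _ = _ := by
        rw [sum_image, sum_image]
        · intro i _ j _ h
          simpa using h
        · intro i _ j _ h
          simpa using h

/-- **One distance.** -/
theorem dist_pair (k n w L : ℕ) (hL : 3 ≤ L) (s t : Fin n) (hst : s ≠ t)
    (R : Type) [Fintype R] [Nonempty R] (K W : R → Type) [∀ r, Field (K r)]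
    [∀ r, Fintype (W r)] (T : ∀ r, Net (K r) (Bt n w) (W r))
    (a : ∀ r, W r → K r)
    (hU : ∀ r x, Valid L x → Dist x s t 5 → (T r).value (a r) x = 0)
    (hc : ∀ x, Valid L x → Dist x s t 6 →
      Nat.card R ≤ 2 ^ (n / 2 ^ (240 * (k + 1))) * Nat.card {r // (T r).value (a r) x ≠ 0})
    (hd : ∀ r, ∑ v, (T r).reads ((s, v), some 0) + ∑ v, (T r).reads ((v, t), some 0) ≤ k * n) :
    ∃ r, n ≤ 2 ^ (240 * (k + 1)) * (Nat.log 2 (Fintype.card (W r)) + 1) := by
  classical
  obtain ⟨D, hD⟩ : ∃ D, D = 2 ^ (240 * (k + 1)) := ⟨_, rfl⟩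
  obtain ⟨E, hE⟩ : ∃ E, E = 2 ^ (60 * (4 * k + 1)) := ⟨_, rfl⟩
  have hDE : D = 2 ^ 180 * E := by
    rw [hD, hE, ← pow_add]; congr 1; ring
  have hE1 : 1 ≤ E := by rw [hE]; exact Nat.one_le_two_pow
  have hDbig : 2 ^ 180 ≤ D := by rw [hDE]; exact Nat.le_mul_of_pos_right _ hE1
  rw [← hD] at hc ⊢
  rcases Nat.lt_or_ge n D with hnD | hnD
  · obtain ⟨r⟩ := (inferInstance : Nonempty R)
    exact ⟨r, hnD.le.trans (Nat.le_mul_of_pos_right _ (by omega))⟩
  obtain ⟨m, hm⟩ : ∃ m, m = (n - 2) / 2 := ⟨_, rfl⟩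
  have hn4 : n ≤ 4 * m := by omega
  have hnm : 2 * m + 2 ≤ n := by omega
  obtain ⟨b, hb⟩ : ∃ b, b = m / 4 := ⟨_, rfl⟩
  have hb1 : m < 4 * (b + 1) := by rw [hb]; exact Nat.lt_mul_div_succ m (by norm_num)
  have hb2 : 4 * b ≤ m := by rw [hb]; exact Nat.mul_div_le _ _
  obtain ⟨c⟩ : Nonempty (Fin b × Fin 4 ↪ Fin m) := by
    apply Function.Embedding.nonempty_of_card_le
    rw [Fintype.card_prod, Fintype.card_fin, Fintype.card_fin, Fintype.card_fin]
    omega
  obtain ⟨f, hf⟩ : ∃ f : Bool × Fin m ↪ Fin n, ∀ y, f y ∈ ({s, t} : Finset (Fin n))ᶜ := by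
    have h1 : Fintype.card (Bool × Fin m) ≤ Fintype.card (({s, t} : Finset (Fin n))ᶜ :
        Finset (Fin n)) := by
      rw [Fintype.card_prod, Fintype.card_bool, Fintype.card_fin, Fintype.card_coe, card_compl,
        Fintype.card_fin, card_pair hst]
      omega
    obtain ⟨g⟩ := Function.Embedding.nonempty_of_card_le h1
    exact ⟨g.trans (Function.Embedding.subtype _), fun y => (g y).2⟩
  have hs : ∀ y, f y ≠ s := fun y h => by
    have := hf y
    rw [mem_compl, mem_insert] at this
    exact this (Or.inl h)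
  have ht : ∀ y, f y ≠ t := fun y h => by
    have := hf y
    rw [mem_compl, mem_insert, mem_singleton] at this
    exact this (Or.inr h)
  have hdiv : n / D ≤ m / E := by
    rw [Nat.le_div_iff_mul_le (by omega)]
    have h1 : n / D * D ≤ n := Nat.div_mul_le_self _ _
    rw [hDE] at h1
    have h2 : n / D * (2 ^ 180 * E) = 2 ^ 180 * (n / D * E) := by ring
    rw [hDE] at h2 ⊢
    rw [h2] at h1
    omega
  obtain ⟨r, hr⟩ := final (V := Bt n w) (4 * k) (n := m) (b := b)
    (by omega) (frA f s t) (instA w f s t c) c (fun ρ z z' y y' v h => inI_diff h)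
    (fun ρ z z' => ¬ Dist (instA w f s t c ρ z z') s t 5) 0 (by
      rw [vol_zero]
      exact Nat.one_le_two_pow) (by
      rintro ρ z z' h ⟨e1, e2⟩
      unfold dst at h
      obtain ⟨i, hi⟩ := card_pos.1 h
      have hi' := (mem_filter.1 hi).2
      cases hz : z i with
      | true =>
        cases hz' : z' i with
        | true => exact hi' (by rw [hz, hz'])
        | false => exact e2 (nearA hs ht c ρ z' z hst hz' hz)
      | false =>
        cases hz' : z' i with
        | true => exact e1 (nearA hs ht c ρ z z' hst hz hz')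
        | false => exact hi' (by rw [hz, hz'])) R K W T a (by
      intro r ρ z z' h h'
      exact h (hU r _ (validA hs ht c ρ z z' hL) h')) (by
      intro ρ z
      refine (hc _ (validA hs ht c ρ z z hL) (farA hs ht c ρ z hst ⟨0, by omega⟩)).trans
        (Nat.mul_le_mul_right _ (Nat.pow_le_pow_right (by norm_num) ?_))
      rw [← hE]
      exact hdiv) (by
      intro r
      calc ∑ v with frA (w := w) f s t v ≠ none, (T r).reads v ≤
            ∑ v, (T r).reads ((s, v), some 0) + ∑ v, (T r).reads ((v, t), some 0) := sum_frA _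
        _ ≤ k * n := hd r
        _ ≤ k * (4 * m) := Nat.mul_le_mul_left _ hn4
        _ = 4 * k * m := by ring)
  refine ⟨r, ?_⟩
  rw [← hE] at hr
  calc n ≤ 4 * m := hn4
    _ ≤ 4 * (E * (Nat.log 2 (Fintype.card (W r)) + 1)) := Nat.mul_le_mul_left _ hr
    _ = 4 * E * (Nat.log 2 (Fintype.card (W r)) + 1) := by ring
    _ ≤ D * (Nat.log 2 (Fintype.card (W r)) + 1) := by
        apply Nat.mul_le_mul_right
        rw [hDE]
        exact Nat.mul_le_mul_right _ (by norm_num)

/-- The asymptotic form. -/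
theorem dist_asym {ε : ℝ} (hε : 0 < ε) (hε1 : ε ≤ 1) : ∃ n₀ : ℕ, ∀ n ≥ n₀,
    ∀ m L w μ : ℕ, 3 ≤ L → (w : ℝ) ≤ (n : ℝ) ^ (1 - ε) → (μ : ℝ) ≤ (n : ℝ) ^ (1 - ε) →
    ∀ s t : Fin n, s ≠ t →
    ∀ (R : Type) [Fintype R] [Nonempty R] (K W : R → Type) [∀ r, Field (K r)]
      [∀ r, Fintype (W r)] (T : ∀ r, Net (K r) (Bt n m) (W r))
      (a : ∀ r, W r → K r), (∀ r, Fintype.card (W r) ≤ 2 ^ w) →
      (∀ r x, Valid L x → Dist x s t 5 → (T r).value (a r) x = 0) →
      (∀ x, Valid L x → Dist x s t 6 →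
        Nat.card R ≤ 2 ^ μ * Nat.card {r // (T r).value (a r) x ≠ 0}) →
      ∃ r, ε / 720 * (n * Real.logb 2 n) ≤
        (∑ v, (T r).reads ((s, v), some 0) + ∑ v, (T r).reads ((v, t), some 0) : ℕ) := by
  obtain ⟨n₀, hn₀⟩ := asym' 240 (by norm_num) hε hε1
  refine ⟨n₀, fun n hn m L w μ hL hw hμ s t hst R _ _ K W _ _ T a hW hU hc => ?_⟩
  obtain ⟨r, hr⟩ := hn₀ n hn w μ hw hμ R
    (fun r => ∑ v, (T r).reads ((s, v), some 0) + ∑ v, (T r).reads ((v, t), some 0))
    (fun r => Nat.log 2 (Fintype.card (W r))) (fun r => by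
      refine (Nat.log_mono_right (hW r)).trans (le_of_eq ?_)
      exact Nat.log_pow (by norm_num) w) (fun k hk hd => by
      refine dist_pair k n m L hL s t hst R K W T a hU (fun x hx hx' => ?_) hd
      exact (hc x hx hx').trans (Nat.mul_le_mul_right _ (Nat.pow_le_pow_right (by norm_num) hk)))
  refine ⟨r, le_trans (le_of_eq ?_) hr⟩
  norm_num

/-- All pairs. -/
theorem dist_total {ε : ℝ} (hε : 0 < ε) (hε1 : ε ≤ 1) : ∃ n₀ : ℕ, ∀ n ≥ n₀,
    ∀ m L w : ℕ, 3 ≤ L → (w : ℝ) ≤ (n : ℝ) ^ (1 - ε) →
    ∀ (K W : Type) [Field K] [Fintype W] (T : Net K (Bt n m) W) (a : Fin n → Fin n → W → K),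
      Fintype.card W ≤ 2 ^ w →
      (∀ s t x, s ≠ t → Valid L x → Dist x s t 5 → T.value (a s t) x = 0) →
      (∀ s t x, s ≠ t → Valid L x → Dist x s t 6 → T.value (a s t) x ≠ 0) →
      ε / 1440 * (n ^ 2 * Real.logb 2 n) ≤ (∑ e, T.reads (e, some 0) : ℕ) := by
  classical
  obtain ⟨n₀, hn₀⟩ := dist_asym hε hε1
  refine ⟨max n₀ 2, fun n hn m L w hL hw K W _ _ T a hW h5 h6 => ?_⟩
  have hn2 : 2 ≤ n := (le_max_right _ _).trans hn
  obtain ⟨A, hA⟩ : ∃ A : Fin n → ℕ, ∀ s, A s = ∑ v, T.reads ((s, v), some 0) := ⟨_, fun _ => rfl⟩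
  obtain ⟨B, hB⟩ : ∃ B : Fin n → ℕ, ∀ t, B t = ∑ v, T.reads ((v, t), some 0) := ⟨_, fun _ => rfl⟩
  have h1 : ∀ s t : Fin n, s ≠ t → ε / 720 * (n * Real.logb 2 n) ≤ (A s : ℝ) + B t := by
    intro s t hst
    obtain ⟨r, hr⟩ := hn₀ n ((le_max_left _ _).trans hn) m L w 0 hL hw (by
      rw [Nat.cast_zero]
      positivity) s t hst Unit (fun _ => K) (fun _ => W)
      (fun _ => T) (fun _ => a s t) (fun _ => hW) (fun _ x hx h => h5 s t x hst hx h)
      (fun x hx h => by
      have h2 : Nat.card {r : Unit // T.value (a s t) x ≠ 0} = 1 := by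
        rw [Nat.card_eq_one_iff_unique]
        exact ⟨⟨fun a b => Subtype.ext rfl⟩, ⟨⟨(), h6 s t x hst hx h⟩⟩⟩
      rw [h2, mul_one, Nat.card_unique]
      exact Nat.one_le_two_pow)
    rw [hA, hB, ← Nat.cast_add]
    exact hr
  have hAs : ∑ s, A s = ∑ e, T.reads (e, some 0) := by
    rw [Fintype.sum_prod_type]
    exact sum_congr rfl (fun s _ => hA s)
  have hBs : ∑ t, B t = ∑ e, T.reads (e, some 0) := by
    rw [Fintype.sum_prod_type_right]
    exact sum_congr rfl (fun s _ => hB s)
  -- sum over the pairs `(s, s + 1)`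
  haveI : NeZero n := ⟨by omega⟩
  have h2 : ∀ s : Fin n, ε / 720 * (n * Real.logb 2 n) ≤ (A s : ℝ) + B (s + 1) := by
    intro s
    apply h1
    intro h
    have h3 : (1 : Fin n) = 0 := by
      have := congrArg (fun y => y - s) h
      simpa using this.symm
    have h4 := congrArg Fin.val h3
    rw [Fin.val_zero, Fin.val_one', Nat.mod_eq_of_lt (by omega)] at h4
    omega
  have h3 : ∑ s : Fin n, B (s + 1) = ∑ t, B t := Equiv.sum_comp (Equiv.addRight (1 : Fin n)) B
  have h4 : (n : ℝ) * (ε / 720 * (n * Real.logb 2 n)) ≤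
      ((∑ e, T.reads (e, some 0) : ℕ) : ℝ) + ((∑ e, T.reads (e, some 0) : ℕ) : ℝ) := by
    calc (n : ℝ) * (ε / 720 * (n * Real.logb 2 n)) =
        ∑ _s : Fin n, (ε / 720 * (n * Real.logb 2 n)) := by
          rw [sum_const, card_univ, Fintype.card_fin, nsmul_eq_mul]
      _ ≤ ∑ s : Fin n, ((A s : ℝ) + B (s + 1)) := sum_le_sum (fun s _ => h2 s)
      _ = ((∑ s, A s : ℕ) : ℝ) + ((∑ s : Fin n, B (s + 1) : ℕ) : ℝ) := by
          rw [sum_add_distrib]
          push_cast
          rfl
      _ = _ := by rw [h3, hAs, hBs]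
  have h5 : (n : ℝ) * (ε / 720 * (n * Real.logb 2 n)) =
      2 * (ε / 1440 * (n ^ 2 * Real.logb 2 n)) := by ring
  linarith

/-- A network. -/
theorem dist_upper (K : Type) [Field K] (n m D : ℕ) (s t : Fin n) :
    ∃ (W : Type) (_ : Fintype W) (T : Net K (Bt n m) W) (a : W → K),
      Fintype.card W ≤ 2 ^ (2 * n) + 1 ∧ (∀ v, T.reads ((s, v), some 0) = 1) ∧
        (∀ v, T.reads ((v, t), some 0) = 1) ∧ ∀ x, T.value a x ≠ 0 ↔ Far x s t D := by
  classical
  obtain ⟨W, hW, T, a, h1, h2, h3⟩ := exists_net K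
    ((univ : Finset (Fin n)).image (fun v => (((s, v), some 0) : Bt n m)) ∪
        (univ : Finset (Fin n)).image (fun v => (((v, t), some 0) : Bt n m)))
    ⟨((s, t), some 0), mem_union_left _ (mem_image_of_mem _ (mem_univ t))⟩
    ⟨((s, t), none), by
      rw [mem_union, mem_image, mem_image]
      rintro (⟨i, -, h⟩ | ⟨i, -, h⟩)
      · exact absurd (congrArg Prod.snd h) (by simp)
      · exact absurd (congrArg Prod.snd h) (by simp)⟩ (fun x => Far x s t D)
  refine ⟨W, hW, T, a, ?_, fun i => h2 _ (mem_union_left _ (mem_image_of_mem _ (mem_univ _))),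
    fun i => h2 _ (mem_union_right _ (mem_image_of_mem
      (fun v => (((v, t), some 0) : Bt n m)) (mem_univ _))), h3⟩
  rw [h1]
  refine Nat.add_le_add_right (Nat.pow_le_pow_right (by norm_num) ?_) 1
  refine (card_union_le _ _).trans ?_
  have e1 := card_image_le (s := (univ : Finset (Fin n)))
    (f := fun v => (((s, v), some 0) : Bt n m))
  have e2 := card_image_le (s := (univ : Finset (Fin n)))
    (f := fun v => (((v, t), some 0) : Bt n m))
  rw [card_univ, Fintype.card_fin] at e1 e2
  omega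

end Pool.Agent.V11163.NT.AP
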