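import Pool.Agent.V11163.GI.NetDec
import Pool.Agent.W896.FD.Ident2

/-!
# Hidden pairs and tree tensor networks with many reads: counting
-/

set_option autoImplicit false

open Finset

namespace Pool.Agent.V11163.NT

open Pool.Agent.TH700.TN Pool.Agent.V11163.GI Pool.Agent.W896.FD
open Pool.Agent.W896.FD.Star (dst vol)

/-- The function `f` is a sum of at most `N` products of functions of the pieces. -/
def Pd {K V : Type} [CommSemiring K] (D : Set V) (f : (V → Bool) → K) (m : ℕ)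
    (P : Fin m → Finset V) (N : ℕ) : Prop :=
  ∃ (U : Type) (_ : Fintype U) (G : Fin m → (V → Bool) → U → K),
    Fintype.card U ≤ N ∧ (∀ j, Dep D (P j) (G j)) ∧ ∀ x, f x = ∑ u, ∏ j, G j x u

open Classical in
/-- The pieces of a network. -/
theorem net_pd {K V W : Type} [CommSemiring K] [Fintype W] (D : Finset V) {h : ℕ} (hh : 1 ≤ h)
    (T : Net K V W) (a : W → K) :
    ∃ (m : ℕ) (P : Fin (m + 1) → Finset V),
      Pd (D : Set V) (T.value a) (m + 1) P (Fintype.card W ^ m) ∧
      (∀ j, (P j).card ≤ 2 * h) ∧ (∀ j, P j ⊆ D) ∧ m * (h + 1) ≤ ∑ v ∈ D, T.reads v ∧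
      ∀ v, (univ.filter (fun j => v ∈ P j)).card ≤ T.reads v := by
  obtain ⟨J, iJ, S, S₀, hdc, c1, c2, c4, c5, c3⟩ := exists_dec D hh T
  obtain ⟨e⟩ : Nonempty (Option J ≃ Fin (Fintype.card J + 1)) :=
    ⟨Fintype.equivFinOfCardEq (Fintype.card_option)⟩
  obtain ⟨U, iU, F₀, F, d1, d2, d3, d4⟩ := hdc
  refine ⟨Fintype.card J, fun j => (e.symm j).elim S₀ S, ⟨U, iU,
    fun j x u => (e.symm j).elim (∑ k, a k * F₀ x u k) (fun j => F j x u), d1, ?_, ?_⟩,
    ?_, ?_, ?_, ?_⟩
  · intro j x x' hx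
    obtain ⟨i, hi⟩ : ∃ i, i = e.symm j := ⟨_, rfl⟩
    have hx' : ∀ v, x v ≠ x' v → v ∈ (D : Set V) ∧ v ∉ i.elim S₀ S := by
      intro v hv
      rw [hi]
      exact hx v hv
    funext u
    simp only [← hi]
    cases i with
    | none =>
      have h1 := d2 x x' hx'
      show ∑ k, a k * F₀ x u k = ∑ k, a k * F₀ x' u k
      rw [h1]
    | some i => exact congrFun (d3 i x x' hx') u
  · intro x
    unfold Net.value
    simp only [d4, Finset.mul_sum]
    rw [sum_comm]
    refine sum_congr rfl fun u _ => ?_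
    rw [← Equiv.prod_comp e]
    simp only [Equiv.symm_apply_apply, Fintype.prod_option, Option.elim_none, Option.elim_some]
    rw [Finset.sum_mul]
    exact sum_congr rfl fun k _ => by ring
  · intro j
    obtain ⟨i, hi⟩ : ∃ i, i = e.symm j := ⟨_, rfl⟩
    simp only [← hi]
    cases i with
    | none => exact c1.trans (by omega)
    | some i => exact (c2 i).2
  · intro j
    obtain ⟨i, hi⟩ : ∃ i, i = e.symm j := ⟨_, rfl⟩
    simp only [← hi]
    cases i with
    | none => exact c5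
    | some i => exact c4 i
  · calc Fintype.card J * (h + 1) = ∑ _j : J, (h + 1) := by
          rw [sum_const, card_univ, smul_eq_mul]
      _ ≤ ∑ j : J, (S j).card := sum_le_sum fun j _ => (c2 j).1
      _ = ∑ j : J, ∑ v ∈ D, (if v ∈ S j then 1 else 0) := by
          refine sum_congr rfl fun j _ => ?_
          rw [← card_filter]
          congr 1
          ext v
          rw [mem_filter]
          exact ⟨fun h => ⟨c4 j h, h⟩, fun h => h.2⟩
      _ = ∑ v ∈ D, (univ.filter (fun j => v ∈ S j)).card := by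
          rw [sum_comm]
          exact sum_congr rfl fun v _ => (card_filter _ _).symm
      _ ≤ ∑ v ∈ D, T.reads v := sum_le_sum fun v _ => (Nat.le_add_right _ _).trans (c3 v)
  · intro v
    refine le_trans (le_of_eq ?_) (c3 v)
    have h1 : (univ.filter (fun j => v ∈ (e.symm j).elim S₀ S)).card =
        (univ.filter (fun i : Option J => v ∈ i.elim S₀ S)).card := by
      refine card_bij (fun j _ => e.symm j) ?_ ?_ ?_
      · intro j hj
        rw [mem_filter] at hj ⊢
        exact ⟨mem_univ _, hj.2⟩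
      · intro i _ j _ h
        exact e.symm.injective h
      · intro i hi
        refine ⟨e i, ?_, e.symm_apply_apply i⟩
        rw [mem_filter] at hi ⊢
        rw [Equiv.symm_apply_apply]
        exact ⟨mem_univ _, hi.2⟩
    rw [h1, card_filter, card_filter, Fintype.sum_option]
    show (if v ∈ S₀ then 1 else 0) + (∑ j : J, (if v ∈ S j then 1 else 0)) = _
    rw [add_comm]

/-- The Hadamard product of a matrix of small rank with its transpose. -/
theorem rank_sq {K : Type} [Field K] {U ι : Type} [Fintype U] (α β : ι → U → K) (P : Finset ι)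
    (h0 : ∀ z ∈ P, ∑ u, α z u * β z u ≠ 0)
    (h1 : ∀ z ∈ P, ∀ y ∈ P, z ≠ y → (∑ u, α z u * β y u) = 0 ∨ (∑ u, α y u * β z u) = 0) :
    P.card ≤ Fintype.card U ^ 2 := by
  classical
  have hli : LinearIndependent K (fun z : P => fun w : U × U => α z.1 w.1 * β z.1 w.2) := by
    rw [Fintype.linearIndependent_iff]
    intro c hc y
    have h2 : ∑ z : P, c z * ((∑ u, α z.1 u * β y.1 u) * (∑ u, α y.1 u * β z.1 u)) = 0 := by
      have h3 : ∀ z : P, c z * ((∑ u, α z.1 u * β y.1 u) * (∑ u, α y.1 u * β z.1 u)) =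
          ∑ w : U × U, (c z * (α z.1 w.1 * β z.1 w.2)) * (β y.1 w.1 * α y.1 w.2) := by
        intro z
        rw [Finset.sum_mul_sum, Fintype.sum_prod_type, Finset.mul_sum]
        refine sum_congr rfl fun u _ => ?_
        rw [Finset.mul_sum]
        exact sum_congr rfl fun v _ => by ring
      simp only [h3]
      rw [sum_comm]
      refine sum_eq_zero fun w _ => ?_
      rw [← Finset.sum_mul]
      have h4 := congrFun hc w
      simp only [Finset.sum_apply, Pi.smul_apply, smul_eq_mul, Pi.zero_apply] at h4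
      rw [h4, zero_mul]
    rw [Finset.sum_eq_single y] at h2
    · have h5 := h0 y.1 y.2
      rcases mul_eq_zero.1 h2 with h6 | h6
      · exact h6
      · rcases mul_eq_zero.1 h6 with h7 | h7 <;> exact absurd h7 h5
    · intro z _ hzy
      rcases h1 z.1 z.2 y.1 y.2 (fun h => hzy (Subtype.ext h)) with h6 | h6
      · rw [h6, zero_mul, mul_zero]
      · rw [h6, mul_zero, mul_zero]
    · intro h
      exact absurd (mem_univ y) h
  have h2 := hli.fintype_card_le_finrank
  rw [Module.finrank_fintype_fun_eq_card, Fintype.card_coe, Fintype.card_prod] at h2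
  rw [sq]
  exact h2

theorem dst_comm {b : ℕ} (z y : Fin b → Bool) : dst z y = dst y z := by
  unfold dst
  congr 1
  ext i
  rw [mem_filter, mem_filter]
  exact ⟨fun h => ⟨h.1, h.2.symm⟩, fun h => ⟨h.1, h.2.symm⟩⟩

/-- A set of words contains a separated set which is not much smaller. -/
theorem packing {b : ℕ} (Δ : ℕ) (S : Finset (Fin b → Bool)) :
    ∃ P ⊆ S, (∀ z ∈ P, ∀ y ∈ P, z ≠ y → Δ < dst z y) ∧ S.card ≤ vol b Δ * P.card := by
  classical
  obtain ⟨Fm, hFm⟩ : ∃ Fm : Finset (Finset (Fin b → Bool)), Fm =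
      S.powerset.filter (fun P => ∀ z ∈ P, ∀ y ∈ P, z ≠ y → Δ < dst z y) := ⟨_, rfl⟩
  have hne : Fm.Nonempty := by
    refine ⟨∅, ?_⟩
    rw [hFm, mem_filter]
    exact ⟨empty_mem_powerset _, fun z hz => absurd hz (notMem_empty _)⟩
  obtain ⟨P, hP, hmax⟩ := exists_max_image Fm card hne
  rw [hFm, mem_filter, mem_powerset] at hP
  refine ⟨P, hP.1, hP.2, ?_⟩
  have h1 : ∀ z ∈ S, ∃ y ∈ P, dst z y ≤ Δ := by
    intro z hz
    by_contra hcon
    push Not at hcon
    have h2 : z ∉ P := by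
      intro h
      have := hcon z h
      unfold dst at this
      simp at this
    have h3 : insert z P ∈ Fm := by
      rw [hFm, mem_filter, mem_powerset]
      refine ⟨insert_subset hz hP.1, ?_⟩
      intro u hu v hv huv
      rcases mem_insert.1 hu with hu1 | hu1
      · rcases mem_insert.1 hv with hv1 | hv1
        · exact absurd (hu1.trans hv1.symm) huv
        · rw [hu1]
          exact hcon v hv1
      · rcases mem_insert.1 hv with hv1 | hv1
        · rw [hv1, dst_comm]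
          exact hcon u hu1
        · exact hP.2 u hu1 v hv1 huv
    have h4 := hmax _ h3
    rw [card_insert_of_notMem h2] at h4
    omega
  have h2 : S ⊆ P.biUnion (fun y => univ.filter (fun z => dst z y ≤ Δ)) := by
    intro z hz
    obtain ⟨y, hy, hzy⟩ := h1 z hz
    rw [mem_biUnion]
    exact ⟨y, hy, mem_filter.2 ⟨mem_univ _, hzy⟩⟩
  refine (card_le_card h2).trans (card_biUnion_le.trans ?_)
  rw [mul_comm, ← smul_eq_mul, ← sum_const]
  refine sum_le_sum fun y _ => ?_
  unfold vol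
  refine card_le_card_of_injOn (fun z => univ.filter (fun i => z i ≠ y i)) ?_ ?_
  · intro z hz
    rw [mem_coe, mem_filter] at hz
    rw [mem_coe, mem_filter]
    exact ⟨mem_univ _, hz.2⟩
  · intro z _ x _ hzx
    funext i
    have h5 : i ∈ univ.filter (fun i => z i ≠ y i) ↔ i ∈ univ.filter (fun i => x i ≠ y i) := by
      have : (univ.filter (fun i => z i ≠ y i)) = univ.filter (fun i => x i ≠ y i) := hzx
      rw [this]
    rw [mem_filter, mem_filter] at h5
    simp only [mem_univ, true_and] at h5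
    cases h6 : z i <;> cases h7 : x i <;> cases h8 : y i <;> simp_all

open Classical in
/-- The accepted words of one family of inputs. -/
theorem card_rho {K V : Type} [Field K] {b m N Δ : ℕ} {D : Set V} {f : (V → Bool) → K}
    {P : Fin m → Finset V} (hf : Pd D f m P N) (col : Fin m → Bool)
    (X : (Fin b → Bool) → (Fin b → Bool) → V → Bool) (I : Finset (Fin b)) (A E : Fin b → Set V)
    (hA : ∀ i ∈ I, ∀ v ∈ A i, v ∈ D ∧ ∀ j, v ∈ P j → col j = true)
    (hE : ∀ i ∈ I, ∀ v ∈ E i, v ∈ D ∧ ∀ j, v ∈ P j → col j = false)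
    (hX : ∀ z z' y y' v, X z z' v ≠ X y y' v →
      (∃ i, z i ≠ y i ∧ v ∈ A i) ∨ (∃ i, z' i ≠ y' i ∧ v ∈ E i))
    (h2 : ∀ z z', Δ < dst z z' → ¬ (f (X z z') ≠ 0 ∧ f (X z' z) ≠ 0)) :
    (univ.filter (fun z : Fin b → Bool => f (X z z) ≠ 0)).card ≤
      vol b Δ * N ^ 2 * 2 ^ (b - I.card) := by
  obtain ⟨U, iU, G, hU, hG, hfG⟩ := hf
  obtain ⟨Z, hZ⟩ : ∃ Z : Finset (Fin b → Bool), Z =
      univ.filter (fun z : Fin b → Bool => f (X z z) ≠ 0) := ⟨_, rfl⟩
  rw [← hZ]
  have h4 : Fintype.card ({i // i ∉ I} → Bool) = 2 ^ (b - I.card) := by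
    rw [Fintype.card_fun, Fintype.card_bool, Fintype.card_subtype_compl, Fintype.card_fin]
    congr 2
    simp
  refine (card_le_mul_card_image (f := fun (z : Fin b → Bool) (i : {i // i ∉ I}) => z i.1) Z
    (vol b Δ * N ^ 2) ?_).trans (Nat.mul_le_mul_left _ ?_)
  · intro w hw
    obtain ⟨z₀, hz₀, hz₀w⟩ := mem_image.1 hw
    obtain ⟨S, hS⟩ : ∃ S : Finset (Fin b → Bool), S =
      Z.filter (fun z => (fun i : {i // i ∉ I} => z i.1) = w) := ⟨_, rfl⟩
    rw [← hS]
    have hSI : ∀ z ∈ S, ∀ y ∈ S, ∀ i, z i ≠ y i → i ∈ I := by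
      intro z hz y hy i hi
      rw [hS, mem_filter] at hz hy
      by_contra h6
      exact hi (congrFun (hz.2.trans hy.2.symm) ⟨i, h6⟩)
    obtain ⟨Q, hQS, hQ1, hQ2⟩ := packing Δ S
    refine hQ2.trans (Nat.mul_le_mul_left _ ?_)
    have hz₀S : z₀ ∈ S := by rw [hS, mem_filter]; exact ⟨hz₀, hz₀w⟩
    have hval : ∀ z ∈ S, ∀ y ∈ S, f (X z y) =
        ∑ u, (∏ j ∈ univ.filter (fun j => col j = true), G j (X z z₀) u) *
          (∏ j ∈ univ.filter (fun j => ¬ col j = true), G j (X z₀ y) u) := by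
      intro z hz y hy
      rw [hfG]
      refine sum_congr rfl fun u _ => ?_
      rw [← prod_filter_mul_prod_filter_not (univ : Finset (Fin m)) (fun j => col j = true)]
      congr 1
      · refine prod_congr rfl fun j hj => ?_
        have hj' := (mem_filter.1 hj).2
        refine congrFun (hG j _ _ fun v hv => ?_) u
        rcases hX _ _ _ _ v hv with ⟨i, h6, -⟩ | ⟨i, h6, h7⟩
        · exact absurd rfl h6
        · have h8 := hE i (hSI y hy z₀ hz₀S i h6) v h7
          refine ⟨h8.1, fun h9 => ?_⟩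
          rw [h8.2 j h9] at hj'
          exact Bool.noConfusion hj'
      · refine prod_congr rfl fun j hj => ?_
        have hj' := (mem_filter.1 hj).2
        refine congrFun (hG j _ _ fun v hv => ?_) u
        rcases hX _ _ _ _ v hv with ⟨i, h6, h7⟩ | ⟨i, h6, -⟩
        · have h8 := hA i (hSI z hz z₀ hz₀S i h6) v h7
          exact ⟨h8.1, fun h9 => hj' (h8.2 j h9)⟩
        · exact absurd rfl h6
    refine (rank_sq (fun z u => ∏ j ∈ univ.filter (fun j => col j = true), G j (X z z₀) u)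
      (fun y u => ∏ j ∈ univ.filter (fun j => ¬ col j = true), G j (X z₀ y) u) Q ?_ ?_).trans
      (Nat.pow_le_pow_left hU 2)
    · intro z hz
      rw [← hval z (hQS hz) z (hQS hz)]
      have := hQS hz
      rw [hS, mem_filter, hZ, mem_filter] at this
      exact this.1.2
    · intro z hz y hy hzy
      rw [← hval z (hQS hz) y (hQS hy), ← hval y (hQS hy) z (hQS hz)]
      by_contra hcon
      push Not at hcon
      exact h2 z y (hQ1 z hz y hy hzy) hcon
  · rw [← h4, ← card_univ]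
    exact card_le_card (subset_univ _)

open Classical in
/-- **Counting.** -/
theorem count {K V : Type} [Field K] {n b m N q t μ Δ : ℕ} {D : Set V} {f : (V → Bool) → K}
    {P : Fin m → Finset V} (hf : Pd D f m P N) (col : Fin m → Bool)
    (X : Equiv.Perm (Fin n) → (Fin b → Bool) → (Fin b → Bool) → V → Bool)
    (c : Fin b × Fin 4 ↪ Fin n) (A E : (Fin 4 → Fin n) → Set V)
    (hX : ∀ ρ z z' y y' v, X ρ z z' v ≠ X ρ y y' v →
      (∃ i, z i ≠ y i ∧ v ∈ A (fun j => ρ (c (i, j)))) ∨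
        (∃ i, z' i ≠ y' i ∧ v ∈ E (fun j => ρ (c (i, j)))))
    (F : Finset (Fin 4 → Fin n))
    (hFA : ∀ τ ∈ F, ∀ v ∈ A τ, v ∈ D ∧ ∀ j, v ∈ P j → col j = true)
    (hFE : ∀ τ ∈ F, ∀ v ∈ E τ, v ∈ D ∧ ∀ j, v ∈ P j → col j = false)
    (hq : 1 ≤ q) (hF : n ^ 4 ≤ q * F.card) (hn : 1 ≤ n) (ht : 128 * q * t ≤ n) (htb : t ≤ b)
    (h2 : ∀ ρ z z', Δ < dst z z' → ¬ (f (X ρ z z') ≠ 0 ∧ f (X ρ z' z) ≠ 0))
    (hacc : 2 ^ b * n.factorial ≤ 2 ^ μ * (univ.filter
      (fun y : Equiv.Perm (Fin n) × (Fin b → Bool) => f (X y.1 y.2 y.2) ≠ 0)).card) :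
    2 ^ (t / (4 * q)) ≤ 2 ^ μ * (vol b Δ * N ^ 2) := by
  have hrho : ∀ ρ : Equiv.Perm (Fin n),
      ((univ.filter (fun z : Fin b → Bool => f (X ρ z z) ≠ 0)).card : ℝ) ≤
      2 ^ b * (vol b Δ * N ^ 2 : ℕ) * ∏ i : Fin t,
        (if (fun j => ρ (c (Fin.castLE htb i, j))) ∈ F then (1 / 2 : ℝ) else 1) := by
    intro ρ
    obtain ⟨I, hI⟩ : ∃ I : Finset (Fin b), I =
      univ.filter (fun i => (fun j => ρ (c (i, j))) ∈ F) := ⟨_, rfl⟩
    have h3 := card_rho (Δ := Δ) hf col (X ρ) I (fun i => A (fun j => ρ (c (i, j))))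
      (fun i => E (fun j => ρ (c (i, j))))
      (fun i hi => hFA _ (by rw [hI, mem_filter] at hi; exact hi.2))
      (fun i hi => hFE _ (by rw [hI, mem_filter] at hi; exact hi.2)) (hX ρ) (h2 ρ)
    have h4 : (univ.filter (fun i : Fin t => (fun j => ρ (c (Fin.castLE htb i, j))) ∈ F)).card ≤
        I.card := by
      refine card_le_card_of_injOn (Fin.castLE htb) ?_ (Fin.castLE_injective htb).injOn
      intro i hi
      rw [mem_coe, mem_filter] at hi
      rw [mem_coe, hI, mem_filter]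
      exact ⟨mem_univ _, hi.2⟩
    have h5 : ∏ i : Fin t, (if (fun j => ρ (c (Fin.castLE htb i, j))) ∈ F then (1 / 2 : ℝ)
        else 1) = (1 / 2) ^
        (univ.filter (fun i : Fin t => (fun j => ρ (c (Fin.castLE htb i, j))) ∈ F)).card := by
      rw [prod_ite, prod_const, prod_const_one, mul_one]
    rw [h5]
    have hIb : I.card ≤ b := by simpa using card_le_univ I
    calc ((univ.filter (fun z : Fin b → Bool => f (X ρ z z) ≠ 0)).card : ℝ) ≤
          (vol b Δ * N ^ 2 : ℕ) * 2 ^ (b - I.card) := by exact_mod_cast h3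
      _ = 2 ^ b * (vol b Δ * N ^ 2 : ℕ) * (1 / 2) ^ I.card := by
          rw [one_div, inv_pow, pow_sub₀ _ (by norm_num) hIb]
          ring
      _ ≤ _ := by
          apply mul_le_mul_of_nonneg_left _ (by positivity)
          exact pow_le_pow_of_le_one (by norm_num) (by norm_num) h4
  have h6 := moment (q := q) hq ht hn
    ⟨fun x : Fin t × Fin 4 => c (Fin.castLE htb x.1, x.2), by
      rintro ⟨i, j⟩ ⟨i', j'⟩ h
      have h7 := c.injective h
      rw [Prod.mk.injEq] at h7
      exact Prod.ext (Fin.castLE_injective htb h7.1) h7.2⟩ F hF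
  have h7 : (univ.filter (fun y : Equiv.Perm (Fin n) × (Fin b → Bool) =>
      f (X y.1 y.2 y.2) ≠ 0)).card =
      ∑ ρ : Equiv.Perm (Fin n), (univ.filter (fun z : Fin b → Bool => f (X ρ z z) ≠ 0)).card := by
    rw [card_filter, Fintype.sum_prod_type]
    refine sum_congr rfl (fun ρ _ => ?_)
    rw [card_filter]
  obtain ⟨C, hC⟩ : ∃ C : ℕ, C = vol b Δ * N ^ 2 := ⟨_, rfl⟩
  rw [← hC] at hrho ⊢
  have h8 : ((univ.filter (fun y : Equiv.Perm (Fin n) × (Fin b → Bool) =>
      f (X y.1 y.2 y.2) ≠ 0)).card : ℝ) ≤ 2 ^ b * C * n.factorial * (1 / 2) ^ (t / (4 * q)) := by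
    rw [h7]
    push_cast
    calc _ ≤ ∑ ρ : Equiv.Perm (Fin n), 2 ^ b * (C : ℝ) * ∏ i : Fin t,
          (if (fun j => ρ (c (Fin.castLE htb i, j))) ∈ F then (1 / 2 : ℝ) else 1) :=
          sum_le_sum (fun ρ _ => hrho ρ)
      _ = 2 ^ b * C * ∑ ρ : Equiv.Perm (Fin n), ∏ i : Fin t,
          (if (fun j => ρ (c (Fin.castLE htb i, j))) ∈ F then (1 / 2 : ℝ) else 1) := by
            rw [mul_sum]
      _ ≤ 2 ^ b * C * ((n.factorial : ℝ) * (1 / 2) ^ (t / (4 * q))) :=
          mul_le_mul_of_nonneg_left h6 (by positivity)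
      _ = _ := by ring
  obtain ⟨Tc, hTc⟩ : ∃ Tc : ℕ, Tc = (univ.filter
      (fun y : Equiv.Perm (Fin n) × (Fin b → Bool) => f (X y.1 y.2 y.2) ≠ 0)).card := ⟨_, rfl⟩
  rw [← hTc] at hacc h8
  have h9 : (2 ^ b * n.factorial : ℝ) ≤ 2 ^ μ * Tc := by exact_mod_cast hacc
  have h10 : (0 : ℝ) < 2 ^ b * n.factorial := by
    have := Nat.factorial_pos n
    positivity
  have h11 : (2 ^ b * n.factorial : ℝ) * 2 ^ (t / (4 * q)) ≤ (2 ^ b * n.factorial : ℝ) *
      (2 ^ μ * C) := by
    calc (2 ^ b * n.factorial : ℝ) * 2 ^ (t / (4 * q)) ≤ (2 ^ μ * Tc) * 2 ^ (t / (4 * q)) :=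
          mul_le_mul_of_nonneg_right h9 (by positivity)
      _ ≤ (2 ^ μ * (2 ^ b * C * n.factorial * (1 / 2) ^ (t / (4 * q)))) * 2 ^ (t / (4 * q)) := by
          apply mul_le_mul_of_nonneg_right _ (by positivity)
          exact mul_le_mul_of_nonneg_left h8 (by positivity)
      _ = (2 ^ b * n.factorial : ℝ) * (2 ^ μ * C) *
          ((1 / 2) ^ (t / (4 * q)) * 2 ^ (t / (4 * q))) := by ring
      _ = _ := by rw [← mul_pow]; norm_num
  have h12 := le_of_mul_le_mul_left h11 h10
  exact_mod_cast h12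

end Pool.Agent.V11163.NT
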