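import Pool.Agent.W896.FD.ExTri
import Pool.Agent.V11163.NT.FinS
import Pool.Agent.V11163.NT.Upper
import Pool.Agent.V11163.NT.Asym

/-!
# Exact Triangle and tree tensor networks with many reads
-/

set_option autoImplicit false
set_option exponentiation.threshold 1000

open Finset

namespace Pool.Agent.V11163.NT.ET

open Pool.Agent.TH700.TN Pool.Agent.V11163.NT
open Pool.Agent.W896.RK Pool.Agent.W896.HP Pool.Agent.W896.FD Pool.Agent.W896.FD.Star
open Pool.Agent.W896.FD.ExTri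
open Pool.Agent.W896.FD.Tri (row)

/-- One row. -/
theorem ex_row (k n w : ℕ) (h4 : 4 < 2 ^ (w + 1)) (u : Fin (n + 1)) (R : Type) [Fintype R]
    [Nonempty R] (K W : R → Type) [∀ r, Field (K r)] [∀ r, Fintype (W r)]
    (T : ∀ r, Net (K r) (Sym2 (Fin (n + 1)) × Pl w) (W r)) (a : ∀ r, W r → K r) (hn : 1 ≤ n)
    (hU : ∀ r x, Valid x → (T r).value (a r) x ≠ 0 → ¬ Yes x)
    (hc : ∀ x, Valid x → ¬ Yes x →
      Nat.card R ≤ 2 ^ (n / 2 ^ (60 * (k + 1))) * Nat.card {r // (T r).value (a r) x ≠ 0})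
    (hd : ∀ r, ∑ e, (T r).reads (pl u e) ≤ k * n) :
    ∃ r, n ≤ 2 ^ (60 * (k + 1)) * (Nat.log 2 (Fintype.card (W r)) + 1) := by
  classical
  obtain ⟨b, hb⟩ : ∃ b, b = n / 4 := ⟨_, rfl⟩
  have hb1 : n < 4 * (b + 1) := by rw [hb]; exact Nat.lt_mul_div_succ n (by norm_num)
  have hb2 : 4 * b ≤ n := by rw [hb]; exact Nat.mul_div_le _ _
  obtain ⟨c⟩ : Nonempty (Fin b × Fin 4 ↪ Fin n) := by
    apply Function.Embedding.nonempty_of_card_le
    rw [Fintype.card_prod, Fintype.card_fin, Fintype.card_fin, Fintype.card_fin]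
    omega
  refine finalS (ν := true) k (b := b) (by omega) (pl_inj u) (fun ρ => fx u c ρ) c
    (fun ρ z z' => ¬ Yes (insE w u c ρ z z')) 0 ?_ ?_ R K W T a ?_ ?_ hd
  · rw [vol_zero]
    exact Nat.one_le_two_pow
  · rintro ρ z z' h ⟨h1, h2⟩
    unfold dst at h
    obtain ⟨i, hi⟩ := card_pos.1 h
    have hi' := (mem_filter.1 hi).2
    cases hz : z i with
    | true =>
      cases hz' : z' i with
      | true => exact hi' (by rw [hz, hz'])
      | false => exact h1 (yesE u h4 c ρ z z' hz hz')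
    | false =>
      cases hz' : z' i with
      | true => exact h2 (yesE u h4 c ρ z' z hz' hz)
      | false => exact hi' (by rw [hz, hz'])
  · intro r ρ z z' h
    exact hU r _ (validE h4 hn u c ρ z z') h
  · intro ρ z
    exact hc _ (validE h4 hn u c ρ z z) (noE h4 u c ρ z)

/-- One vertex. -/
theorem ex_vertex (k n w : ℕ) (hw : n ^ 300 < 2 ^ (w + 1)) (u : Fin n) (R : Type) [Fintype R]
    [Nonempty R] (K W : R → Type) [∀ r, Field (K r)] [∀ r, Fintype (W r)]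
    (T : ∀ r, Net (K r) (Sym2 (Fin n) × Pl w) (W r)) (a : ∀ r, W r → K r)
    (hU : ∀ r x, Valid x → (T r).value (a r) x ≠ 0 → ¬ Yes x)
    (hc : ∀ x, Valid x → ¬ Yes x →
      Nat.card R ≤ 2 ^ (n / 2 ^ (60 * (k + 3))) * Nat.card {r // (T r).value (a r) x ≠ 0})
    (hd : ∀ r, ∑ v, (T r).reads (s(u, v), some (some 0)) ≤ k * n) :
    ∃ r, n ≤ 2 ^ (60 * (k + 3)) * (Nat.log 2 (Fintype.card (W r)) + 1) := by
  classical
  have hk : k + 1 ≤ 2 ^ k := Nat.lt_two_pow_self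
  have hpow : 2 ^ (60 * (k + 3)) = 2 ^ 60 * 2 ^ (60 * (k + 2)) := by
    rw [← pow_add]; congr 1; ring
  have hbig : k + 2 ≤ 2 ^ (60 * (k + 3)) := by
    calc k + 2 ≤ 2 ^ k * 2 ^ 1 := by omega
      _ = 2 ^ (k + 1) := by rw [pow_add]
      _ ≤ _ := Nat.pow_le_pow_right (by norm_num) (by omega)
  rcases Nat.lt_or_ge n (k + 2) with hn | hn
  · obtain ⟨r⟩ := (inferInstance : Nonempty R)
    exact ⟨r, (hn.le.trans hbig).trans (Nat.le_mul_of_pos_right _ (by omega))⟩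
  have h4 : 4 < 2 ^ (w + 1) := by
    refine lt_of_le_of_lt ?_ hw
    calc 4 = 2 ^ 2 := by norm_num
      _ ≤ 2 ^ 300 := Nat.pow_le_pow_right (by norm_num) (by norm_num)
      _ ≤ n ^ 300 := Nat.pow_le_pow_left (by omega) _
  obtain ⟨n', rfl⟩ : ∃ n', n = n' + 1 := ⟨n - 1, by omega⟩
  have hpos : 0 < 2 ^ (60 * (k + 2)) := Nat.two_pow_pos _
  have hq : (n' + 1) / 2 ^ (60 * (k + 3)) ≤ n' / 2 ^ (60 * (k + 1 + 1)) := by
    rw [Nat.le_div_iff_mul_le (Nat.two_pow_pos _)]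
    have h1 : (n' + 1) / 2 ^ (60 * (k + 3)) * 2 ^ (60 * (k + 3)) ≤ n' + 1 :=
      Nat.div_mul_le_self _ _
    have h2 : (n' + 1) / 2 ^ (60 * (k + 3)) * (2 * 2 ^ (60 * (k + 2))) ≤ n' + 1 := by
      refine le_trans (Nat.mul_le_mul_left _ ?_) h1
      rw [hpow]
      exact Nat.mul_le_mul_right _ (by norm_num)
    have e1 : 60 * (k + 1 + 1) = 60 * (k + 2) := by ring
    rw [e1]
    have h3 : (n' + 1) / 2 ^ (60 * (k + 3)) * (2 * 2 ^ (60 * (k + 2))) =
        2 * ((n' + 1) / 2 ^ (60 * (k + 3)) * 2 ^ (60 * (k + 2))) := by ring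
    rw [h3] at h2
    omega
  obtain ⟨r, hr⟩ := ex_row (k + 1) n' w h4 u R K W T a (by omega) hU
    (fun x hx hx' => (hc x hx hx').trans
      (Nat.mul_le_mul_right _ (Nat.pow_le_pow_right (by norm_num) hq))) (fun r => by
      have h1 : ∑ v, (T r).reads (pl u v) ≤ ∑ v, (T r).reads (s(u, v), some (some 0)) := by
        rw [Fin.sum_univ_succAbove (fun v => (T r).reads (s(u, v), some (some 0))) u]
        unfold pl row
        exact Nat.le_add_left _ _
      refine h1.trans ((hd r).trans ?_)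
      nlinarith)
  refine ⟨r, ?_⟩
  have e1 : 60 * (k + 1 + 1) = 60 * (k + 2) := by ring
  rw [e1] at hr
  rw [hpow]
  have h5 : 1 ≤ 2 ^ (60 * (k + 2)) * (Nat.log 2 (Fintype.card (W r)) + 1) :=
    Nat.mul_pos hpos (by omega)
  nlinarith

/-- Every pair is counted at most twice. -/
theorem sum_pairs {n w : ℕ} (g : Sym2 (Fin n) × Pl w → ℕ) :
    ∑ u : Fin n, ∑ v : Fin n, g (s(u, v), some (some 0)) ≤ 2 * ∑ e, g (e, some (some 0)) := by
  classical
  rw [← Fintype.sum_prod_type']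
  rw [← sum_fiberwise (univ : Finset (Fin n × Fin n)) (fun x => s(x.1, x.2))
    (fun x => g (s(x.1, x.2), some (some 0))), mul_sum]
  refine sum_le_sum (fun e _ => ?_)
  have h2 : ∑ x ∈ univ.filter (fun x : Fin n × Fin n => s(x.1, x.2) = e),
      g (s(x.1, x.2), some (some 0)) =
      ∑ x ∈ univ.filter (fun x : Fin n × Fin n => s(x.1, x.2) = e),
        g (e, some (some 0)) :=
    sum_congr rfl (fun x hx => by rw [(mem_filter.1 hx).2])
  rw [h2, sum_const, smul_eq_mul]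
  apply Nat.mul_le_mul_right
  induction e with
  | _ x y =>
    have h3 : univ.filter (fun z : Fin n × Fin n => s(z.1, z.2) = s(x, y)) ⊆
        {(x, y), (y, x)} := by
      intro z hz
      have := (mem_filter.1 hz).2
      rw [Sym2.eq_iff] at this
      rw [mem_insert, mem_singleton]
      rcases this with ⟨h4, h5⟩ | ⟨h4, h5⟩
      · exact Or.inl (Prod.ext h4 h5)
      · exact Or.inr (Prod.ext h4 h5)
    exact (card_le_card h3).trans card_le_two

/-- The asymptotic form for one vertex. -/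
theorem ex_asym {ε : ℝ} (hε : 0 < ε) (hε1 : ε ≤ 1) : ∃ n₀ : ℕ, ∀ n ≥ n₀,
    ∀ m w μ : ℕ, n ^ 300 < 2 ^ (m + 1) → (w : ℝ) ≤ (n : ℝ) ^ (1 - ε) →
      (μ : ℝ) ≤ (n : ℝ) ^ (1 - ε) →
    ∀ (u : Fin n) (R : Type) [Fintype R] [Nonempty R] (K W : R → Type) [∀ r, Field (K r)]
      [∀ r, Fintype (W r)] (T : ∀ r, Net (K r) (Sym2 (Fin n) × Pl m) (W r))
      (a : ∀ r, W r → K r), (∀ r, Fintype.card (W r) ≤ 2 ^ w) →
      (∀ r x, Valid x → (T r).value (a r) x ≠ 0 → ¬ Yes x) →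
      (∀ x, Valid x → ¬ Yes x →
        Nat.card R ≤ 2 ^ μ * Nat.card {r // (T r).value (a r) x ≠ 0}) →
      ∃ r, ε / 540 * (n * Real.logb 2 n) ≤
        (∑ v, (T r).reads (s(u, v), some (some 0)) : ℕ) := by
  obtain ⟨n₀, hn₀⟩ := asym' 180 (by norm_num) hε hε1
  refine ⟨n₀, fun n hn m w μ hm hw hμ u R _ _ K W _ _ T a hW hU hc => ?_⟩
  have hpow : ∀ k : ℕ, 2 ^ (60 * (k + 3)) ≤ 2 ^ (180 * (k + 1)) := fun k =>
    Nat.pow_le_pow_right (by norm_num) (by omega)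
  obtain ⟨r, hr⟩ := hn₀ n hn w μ hw hμ R (fun r => ∑ v, (T r).reads (s(u, v), some (some 0)))
    (fun r => Nat.log 2 (Fintype.card (W r))) (fun r => by
      refine (Nat.log_mono_right (hW r)).trans (le_of_eq ?_)
      exact Nat.log_pow (by norm_num) w) (fun k hk hd => by
      obtain ⟨r, hr⟩ := ex_vertex k n m hm u R K W T a hU (fun x hx hx' =>
        (hc x hx hx').trans (Nat.mul_le_mul_right _ (Nat.pow_le_pow_right (by norm_num)
          (hk.trans (Nat.div_le_div_left (hpow k) (Nat.two_pow_pos _)))))) hd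
      exact ⟨r, hr.trans (Nat.mul_le_mul_right _ (hpow k))⟩)
  refine ⟨r, le_trans (le_of_eq ?_) hr⟩
  norm_num

/-- The asymptotic form for all last bits. -/
theorem ex_total {ε : ℝ} (hε : 0 < ε) (hε1 : ε ≤ 1) : ∃ n₀ : ℕ, ∀ n ≥ n₀,
    ∀ m w : ℕ, n ^ 300 < 2 ^ (m + 1) → (w : ℝ) ≤ (n : ℝ) ^ (1 - ε) →
    ∀ (K W : Type) [Field K] [Fintype W] (T : Net K (Sym2 (Fin n) × Pl m) W) (a : W → K),
      Fintype.card W ≤ 2 ^ w → (∀ x, Valid x → (T.value a x ≠ 0 ↔ ¬ Yes x)) →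
      ε / 1080 * (n ^ 2 * Real.logb 2 n) ≤ (∑ e, T.reads (e, some (some 0)) : ℕ) := by
  obtain ⟨n₀, hn₀⟩ := ex_asym hε hε1
  refine ⟨n₀, fun n hn m w hm hw K W _ _ T a hW hT => ?_⟩
  have h1 : ∀ u : Fin n, ε / 540 * (n * Real.logb 2 n) ≤
      ((∑ v, T.reads (s(u, v), some (some 0)) : ℕ) : ℝ) := by
    intro u
    obtain ⟨r, hr⟩ := hn₀ n hn m w 0 hm hw (by
      rw [Nat.cast_zero]
      positivity) u Unit (fun _ => K) (fun _ => W) (fun _ => T)
      (fun _ => a) (fun _ => hW) (fun _ x hx h => (hT x hx).1 h) (fun x hx h => by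
      have h2 : Nat.card {r : Unit // T.value a x ≠ 0} = 1 := by
        rw [Nat.card_eq_one_iff_unique]
        exact ⟨⟨fun a b => Subtype.ext rfl⟩, ⟨⟨(), (hT x hx).2 h⟩⟩⟩
      rw [h2, mul_one, Nat.card_unique]
      exact Nat.one_le_two_pow)
    exact hr
  have h2 : (n : ℝ) * (ε / 540 * (n * Real.logb 2 n)) ≤
      ((∑ u : Fin n, ∑ v : Fin n, T.reads (s(u, v), some (some 0)) : ℕ) : ℝ) := by
    rw [Nat.cast_sum]
    calc (n : ℝ) * (ε / 540 * (n * Real.logb 2 n)) =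
        ∑ _u : Fin n, (ε / 540 * (n * Real.logb 2 n)) := by
          rw [sum_const, card_univ, Fintype.card_fin, nsmul_eq_mul]
      _ ≤ _ := sum_le_sum (fun u _ => h1 u)
  have h3 : ((∑ u : Fin n, ∑ v : Fin n, T.reads (s(u, v), some (some 0)) : ℕ) : ℝ) ≤
      2 * ((∑ e, T.reads (e, some (some 0)) : ℕ) : ℝ) := by
    exact_mod_cast sum_pairs (fun x => T.reads x)
  have h4 : (n : ℝ) * (ε / 540 * (n * Real.logb 2 n)) =
      2 * (ε / 1080 * (n ^ 2 * Real.logb 2 n)) := by ring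
  linarith

/-- A network. -/
theorem ex_upper (K : Type) [Field K] (n w : ℕ) (u : Fin n) :
    ∃ (W : Type) (_ : Fintype W) (T : Net K (Sym2 (Fin n) × Pl w) W) (a : W → K),
      Fintype.card W = 2 ^ n + 1 ∧ (∀ v, T.reads (s(u, v), some (some 0)) = 1) ∧
        ∀ x, T.value a x ≠ 0 ↔ ¬ Yes x := by
  classical
  obtain ⟨W, hW, T, a, h1, h2, h3⟩ := exists_net K
    ((univ : Finset (Fin n)).image (fun v => (s(u, v), some (some (0 : Fin (w + 1))))))
    ⟨_, mem_image_of_mem _ (mem_univ u)⟩ ⟨(s(u, u), none), by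
      rw [mem_image]
      rintro ⟨i, -, h⟩
      exact absurd (congrArg Prod.snd h) (by simp)⟩ (fun x => ¬ Yes x)
  refine ⟨W, hW, T, a, ?_, fun i => h2 _ (mem_image_of_mem _ (mem_univ _)), h3⟩
  rw [h1, card_image_of_injective, card_univ, Fintype.card_fin]
  intro i j h
  exact Sym2.congr_right.1 (congrArg Prod.fst h)

end Pool.Agent.V11163.NT.ET
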