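import Pool.Agent.W896.FD.Sum3
import Pool.Agent.V11163.NT.Fin
import Pool.Agent.V11163.NT.Upper
import Pool.Agent.V11163.NT.Asym

/-!
# 3SUM and tree tensor networks with many reads
-/

set_option autoImplicit false
set_option exponentiation.threshold 1000

open Finset

namespace Pool.Agent.V11163.NT.S3

open Pool.Agent.TH700.TN Pool.Agent.V11163.NT
open Pool.Agent.W896.RK Pool.Agent.W896.HP Pool.Agent.W896.FD Pool.Agent.W896.FD.Star
open Pool.Agent.W896.FD.Sum3

theorem sum_fr3 {n m w : ℕ} (g : Fin n × Option (Fin (w + 1)) → ℕ) :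
    ∑ v with fr3 (w := w) (n := n) m v ≠ none, g v ≤ ∑ i, g (i, some 0) := by
  classical
  calc ∑ v with fr3 (w := w) (n := n) m v ≠ none, g v ≤
      ∑ v ∈ (univ : Finset (Fin n)).image (fun i => (i, some (0 : Fin (w + 1)))), g v := by
        apply sum_le_sum_of_subset
        rintro ⟨i, j⟩ hv
        rw [mem_filter] at hv
        rw [mem_image]
        refine ⟨i, mem_univ _, ?_⟩
        have h1 := hv.2
        unfold fr3 at h1
        cases j with
        | none => exact absurd rfl h1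
        | some j =>
          simp only at h1
          by_cases hj : j = 0
          · rw [hj]
          · rw [if_neg hj] at h1
            exact absurd rfl h1
    _ = ∑ i, g (i, some 0) := sum_image (by
        intro i _ j _ h
        exact (Prod.mk.injEq _ _ _ _ ▸ h).1)

/-- **3SUM.** -/
theorem sum3 (k n w : ℕ) (hw : n ^ 3 < 2 ^ (w + 1))
    (R : Type) [Fintype R] [Nonempty R] (K W : R → Type) [∀ r, Field (K r)]
    [∀ r, Fintype (W r)] (T : ∀ r, Net (K r) (Fin n × Option (Fin (w + 1))) (W r))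
    (a : ∀ r, W r → K r)
    (hU : ∀ r x, Valid x → (T r).value (a r) x ≠ 0 → ¬ Yes x)
    (hc : ∀ x, Valid x → ¬ Yes x →
      Nat.card R ≤ 2 ^ (n / 2 ^ (240 * (k + 1))) * Nat.card {r // (T r).value (a r) x ≠ 0})
    (hd : ∀ r, ∑ i, (T r).reads (i, some 0) ≤ k * n) :
    ∃ r, n ≤ 2 ^ (240 * (k + 1)) * (Nat.log 2 (Fintype.card (W r)) + 1) := by
  classical
  obtain ⟨D, hD⟩ : ∃ D, D = 2 ^ (240 * (k + 1)) := ⟨_, rfl⟩
  obtain ⟨E, hE⟩ : ∃ E, E = 2 ^ (60 * (4 * k + 1)) := ⟨_, rfl⟩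
  have hDE : D = 2 ^ 180 * E := by
    rw [hD, hE, ← pow_add]; congr 1; ring
  have hE1 : 1 ≤ E := by rw [hE]; exact Nat.one_le_two_pow
  have hDbig : 2 ^ 180 ≤ D := by rw [hDE]; exact Nat.le_mul_of_pos_right _ hE1
  rw [← hD] at hc ⊢
  rcases Nat.lt_or_ge n D with hnD | hnD
  · obtain ⟨r⟩ := (inferInstance : Nonempty R)
    exact ⟨r, hnD.le.trans (Nat.le_mul_of_pos_right _ (by omega))⟩
  obtain ⟨m, hm⟩ : ∃ m, m = (n - 1) / 2 := ⟨_, rfl⟩
  have hn1 : 2 * m + 1 ≤ n := by omega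
  have hn : n ≤ 2 * m + 2 := by omega
  have hn4 : n ≤ 4 * m := by omega
  obtain ⟨b, hb⟩ : ∃ b, b = m / 4 := ⟨_, rfl⟩
  have hb1 : m < 4 * (b + 1) := by rw [hb]; exact Nat.lt_mul_div_succ m (by norm_num)
  have hb2 : 4 * b ≤ m := by rw [hb]; exact Nat.mul_div_le _ _
  obtain ⟨c⟩ : Nonempty (Fin b × Fin 4 ↪ Fin m) := by
    apply Function.Embedding.nonempty_of_card_le
    rw [Fintype.card_prod, Fintype.card_fin, Fintype.card_fin, Fintype.card_fin]
    omega
  have hn3 : 16 * (8 * m + 8) ≤ n ^ 3 := by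
    have h1 : 16 * (8 * m + 8) ≤ 2 ^ 10 * n := by omega
    have h2 : 2 ^ 10 ≤ n := by omega
    calc 16 * (8 * m + 8) ≤ 2 ^ 10 * n := h1
      _ ≤ n * n := Nat.mul_le_mul_right _ h2
      _ = n ^ 2 := by ring
      _ ≤ n ^ 3 := Nat.pow_le_pow_right (by omega) (by norm_num)
  have hw' : 16 * (8 * m + 8) < 2 ^ (w + 1) := hn3.trans_lt hw
  have hdiv : n / D ≤ m / E := by
    rw [Nat.le_div_iff_mul_le (by omega)]
    have h1 : n / D * D ≤ n := Nat.div_mul_le_self _ _
    rw [hDE] at h1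
    have h2 : n / D * (2 ^ 180 * E) = 2 ^ 180 * (n / D * E) := by ring
    rw [hDE] at h2 ⊢
    rw [h2] at h1
    omega
  obtain ⟨r, hr⟩ := final (V := Fin n × Option (Fin (w + 1))) (4 * k) (n := m) (b := b)
    (by omega) (fr3 m) (inst3 n w c) c (fun ρ z z' y y' v h => inI_diff h)
    (fun ρ z z' => ¬ Yes (inst3 n w c ρ z z')) 0 (by
      rw [vol_zero]
      exact Nat.one_le_two_pow) (by
      rintro ρ z z' h ⟨e1, e2⟩
      unfold dst at h
      obtain ⟨i, hi⟩ := card_pos.1 h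
      have hi' := (mem_filter.1 hi).2
      cases hz : z i with
      | true =>
        cases hz' : z' i with
        | true => exact hi' (by rw [hz, hz'])
        | false => exact e1 (yes3 hn1 hn hw' c ρ z z' hz hz')
      | false =>
        cases hz' : z' i with
        | true => exact e2 (yes3 hn1 hn hw' c ρ z' z hz' hz)
        | false => exact hi' (by rw [hz, hz'])) R K W T a (by
      intro r ρ z z' h
      exact hU r _ (valid3 hn hw' hn3 c ρ z z') h) (by
      intro ρ z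
      refine (hc _ (valid3 hn hw' hn3 c ρ z z) (no3 hn hw' c ρ z)).trans
        (Nat.mul_le_mul_right _ (Nat.pow_le_pow_right (by norm_num) ?_))
      rw [← hE]
      exact hdiv) (by
      intro r
      calc ∑ v with fr3 (w := w) (n := n) m v ≠ none, (T r).reads v ≤
            ∑ i, (T r).reads (i, some 0) := sum_fr3 _
        _ ≤ k * n := hd r
        _ ≤ k * (4 * m) := Nat.mul_le_mul_left _ hn4
        _ = 4 * k * m := by ring)
  refine ⟨r, ?_⟩
  rw [← hE] at hr
  calc n ≤ 4 * m := hn4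
    _ ≤ 4 * (E * (Nat.log 2 (Fintype.card (W r)) + 1)) := Nat.mul_le_mul_left _ hr
    _ = 4 * E * (Nat.log 2 (Fintype.card (W r)) + 1) := by ring
    _ ≤ D * (Nat.log 2 (Fintype.card (W r)) + 1) := by
        apply Nat.mul_le_mul_right
        rw [hDE]
        exact Nat.mul_le_mul_right _ (by norm_num)

/-- The asymptotic form. -/
theorem sum3_asym {ε : ℝ} (hε : 0 < ε) (hε1 : ε ≤ 1) : ∃ n₀ : ℕ, ∀ n ≥ n₀,
    ∀ m w μ : ℕ, n ^ 3 < 2 ^ (m + 1) → (w : ℝ) ≤ (n : ℝ) ^ (1 - ε) →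
      (μ : ℝ) ≤ (n : ℝ) ^ (1 - ε) →
    ∀ (R : Type) [Fintype R] [Nonempty R] (K W : R → Type) [∀ r, Field (K r)]
      [∀ r, Fintype (W r)] (T : ∀ r, Net (K r) (Fin n × Option (Fin (m + 1))) (W r))
      (a : ∀ r, W r → K r), (∀ r, Fintype.card (W r) ≤ 2 ^ w) →
      (∀ r x, Valid x → (T r).value (a r) x ≠ 0 → ¬ Yes x) →
      (∀ x, Valid x → ¬ Yes x →
        Nat.card R ≤ 2 ^ μ * Nat.card {r // (T r).value (a r) x ≠ 0}) →
      ∃ r, ε / 720 * (n * Real.logb 2 n) ≤ (∑ i, (T r).reads (i, some 0) : ℕ) := by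
  obtain ⟨n₀, hn₀⟩ := asym' 240 (by norm_num) hε hε1
  refine ⟨n₀, fun n hn m w μ hm hw hμ R _ _ K W _ _ T a hW hU hc => ?_⟩
  obtain ⟨r, hr⟩ := hn₀ n hn w μ hw hμ R (fun r => ∑ i, (T r).reads (i, some 0))
    (fun r => Nat.log 2 (Fintype.card (W r))) (fun r => by
      refine (Nat.log_mono_right (hW r)).trans (le_of_eq ?_)
      exact Nat.log_pow (by norm_num) w) (fun k hk hd => by
      refine sum3 k n m hm R K W T a hU (fun x hx hx' => ?_) hd
      exact (hc x hx hx').trans (Nat.mul_le_mul_right _ (Nat.pow_le_pow_right (by norm_num) hk)))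
  refine ⟨r, le_trans (le_of_eq ?_) hr⟩
  norm_num

/-- A network. -/
theorem sum3_upper (K : Type) [Field K] (n w : ℕ) (hn : 1 ≤ n) :
    ∃ (W : Type) (_ : Fintype W) (T : Net K (Fin n × Option (Fin (w + 1))) W) (a : W → K),
      Fintype.card W = 2 ^ n + 1 ∧ (∀ i, T.reads (i, some 0) = 1) ∧
        ∀ x, T.value a x ≠ 0 ↔ Valid x ∧ ¬ Yes x := by
  classical
  obtain ⟨W, hW, T, a, h1, h2, h3⟩ := exists_net K
    ((univ : Finset (Fin n)).image (fun i => (i, some (0 : Fin (w + 1)))))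
    ⟨(⟨0, hn⟩, some 0), mem_image_of_mem _ (mem_univ _)⟩ ⟨(⟨0, hn⟩, none), by
      rw [mem_image]
      rintro ⟨i, -, h⟩
      exact absurd (congrArg Prod.snd h) (by simp)⟩ (fun x => Valid x ∧ ¬ Yes x)
  refine ⟨W, hW, T, a, ?_, fun i => h2 _ (mem_image_of_mem _ (mem_univ _)), h3⟩
  rw [h1, card_image_of_injective _ (fun i j h => congrArg Prod.fst h), card_univ,
    Fintype.card_fin]

end Pool.Agent.V11163.NT.S3
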