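import Pool.Agent.W896.FD.Sum3
import Pool.Agent.V11163.NT.Fin
import Pool.Agent.V11163.NT.Upper
import Pool.Agent.V11163.NT.Asym

/-!
# 3SUM and tree tensor networks: every digit must be read many times
-/

set_option autoImplicit false
set_option exponentiation.threshold 1000

open Finset

namespace Pool.Agent.V11163.NT.S4

open Pool.Agent.TH700.TN Pool.Agent.V11163.NT
open Pool.Agent.W896.RK Pool.Agent.W896.HP Pool.Agent.W896.FD Pool.Agent.W896.FD.Star
open Pool.Agent.W896.FD.Sum3 (val hf lb nu cls nu_le nu_inj key)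
open Pool.Agent.W896.FD.Tri (Mt grS_0 grS_2)
open Pool.Agent.W896.FD.OV (pt pt_eq)

variable {n m b w : ℕ}

/-- `n` different integers in `[-n ^ 4, n ^ 4]`. -/
def Valid (x : Fin n × Option (Fin w) → Bool) : Prop :=
  (∀ i, |val x i| ≤ (n : ℤ) ^ 4) ∧ Function.Injective (val x)

/-- There are three different indices with sum zero. -/
def Yes (x : Fin n × Option (Fin w) → Bool) : Prop :=
  ∃ i j l : Fin n, i ≠ j ∧ i ≠ l ∧ j ≠ l ∧ val x i + val x j + val x l = 0

/-- The free bits. -/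
def fr4 (m p : ℕ) (v : Fin n × Option (Fin (w + 1))) : Option (Fin m) :=
  match v.2 with
  | none => none
  | some j => if j.val = p then
      (if h : v.1.val < m then some ⟨v.1.val, h⟩ else
        if h : v.1.val < 2 * m then some ⟨v.1.val - m, by omega⟩ else none)
      else none

/-- The fixed bits. -/
noncomputable def tb4 (p : ℕ) (c : Fin b × Fin 4 ↪ Fin m) (ρ : Equiv.Perm (Fin m))
    (v : Fin n × Option (Fin (w + 1))) : Bool :=
  match v.2 with
  | none => decide (v.1.val = 2 * m)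
  | some j => (2 ^ p * Nat.bit false (hf c ρ v.1.val)).testBit j.val

/-- The instance. -/
noncomputable def inst4 (n w p : ℕ) (c : Fin b × Fin 4 ↪ Fin m) (ρ : Equiv.Perm (Fin m))
    (z z' : Fin b → Bool) : Fin n × Option (Fin (w + 1)) → Bool :=
  inI true (fr4 m p) (fun ρ => tb4 p c ρ) c ρ z z'

theorem inst4_none (p : ℕ) (c : Fin b × Fin 4 ↪ Fin m) (ρ : Equiv.Perm (Fin m))
    (z z' : Fin b → Bool) (i : Fin n) :
    inst4 n w p c ρ z z' (i, none) = decide (i.val = 2 * m) := by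
  unfold inst4 inI fr4 tb4
  rfl

theorem inst4_some (p : ℕ) (c : Fin b × Fin 4 ↪ Fin m) (ρ : Equiv.Perm (Fin m))
    (z z' : Fin b → Bool) (i : Fin n) (j : Fin (w + 1)) :
    inst4 n w p c ρ z z' (i, some j) = (2 ^ p * nu c ρ z z' i.val).testBit j.val := by
  unfold inst4 inI fr4 tb4 nu lb
  by_cases hj : j.val = p
  · simp only [hj, if_true]
    have h0 : ∀ (s : Bool) (a : ℕ), (2 ^ p * Nat.bit s a).testBit p = s := by
      intro s a
      rw [Nat.testBit_two_pow_mul]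
      simp
    by_cases h1 : i.val < m
    · simp only [h1, dif_pos, h0]
    · simp only [h1, dif_neg, not_false_eq_true]
      by_cases h2 : i.val < 2 * m
      · simp only [h2, dif_pos, h0]
      · simp only [h2, dif_neg, not_false_eq_true, h0]
  · simp only [hj, if_false]
    rw [Nat.testBit_two_pow_mul, Nat.testBit_two_pow_mul]
    by_cases hp : p ≤ j.val
    · obtain ⟨j', hj'⟩ : ∃ j', j.val - p = j' + 1 := ⟨j.val - p - 1, by omega⟩
      rw [hj', Nat.testBit_bit_succ, Nat.testBit_bit_succ]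
    · have : decide (j.val ≥ p) = false := decide_eq_false hp
      rw [this, Bool.false_and, Bool.false_and]

theorem val_inst (p : ℕ) (c : Fin b × Fin 4 ↪ Fin m) (ρ : Equiv.Perm (Fin m))
    (z z' : Fin b → Bool) (i : Fin n) (hi : 2 ^ p * nu c ρ z z' i.val < 2 ^ (w + 1)) :
    val (inst4 n w p c ρ z z') i =
      (if i.val = 2 * m then -1 else 1) * (2 ^ p * nu c ρ z z' i.val : ℤ) := by
  unfold Pool.Agent.W896.FD.Sum3.val
  rw [inst4_none]
  have h : (fun j => inst4 n w p c ρ z z' (i, some j)) =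
      fun j : Fin (w + 1) => (2 ^ p * nu c ρ z z' i.val).testBit j.val := by
    funext j
    exact inst4_some p c ρ z z' i j
  rw [h, Nat.ofBits_testBit, Nat.mod_eq_of_lt hi]
  simp only [decide_eq_true_eq]
  push_cast
  rfl

section

variable {p : ℕ} (hn1 : 2 * m + 1 ≤ n) (hn : n ≤ 2 * m + 2)
  (hw : 2 ^ p * (16 * (8 * m + 8)) < 2 ^ (w + 1))
  (c : Fin b × Fin 4 ↪ Fin m) (ρ : Equiv.Perm (Fin m))

include hn hw in
theorem val4 (z z' : Fin b → Bool) (i : Fin n) : val (inst4 n w p c ρ z z') i =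
      (if i.val = 2 * m then -1 else 1) * (2 ^ p * nu c ρ z z' i.val : ℤ) :=
  val_inst p c ρ z z' i
    ((Nat.mul_le_mul_left _ (nu_le hn c ρ z z' i).2).trans_lt hw)

include hn hw in
theorem no4 (z : Fin b → Bool) : ¬ Yes (inst4 n w p c ρ z z) := by
  -- two different numbers have no sum among the numbers
  have hno : ∀ i j l : Fin n, i ≠ j → nu c ρ z z i.val + nu c ρ z z j.val ≠ nu c ρ z z l.val := by
    intro i j l hij h
    obtain ⟨v, hv1, hv2⟩ := key hn c ρ z z hij h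
    by_cases hv : ∃ u, Mt c ρ v u
    · obtain ⟨u, hu⟩ := hv
      rw [pt_eq hu] at hv2
      obtain ⟨q, ⟨e1, e2⟩ | ⟨e1, e2⟩⟩ := hu
      · rw [e1, Equiv.symm_apply_apply, grS_0] at hv1
        rw [e2, Equiv.symm_apply_apply, grS_2, hv1] at hv2
        exact Bool.noConfusion hv2
      · rw [e1, Equiv.symm_apply_apply, grS_2] at hv1
        rw [e2, Equiv.symm_apply_apply, grS_0] at hv2
        rw [hv2] at hv1
        exact Bool.noConfusion hv1
    · have h0 : grS true c z z (ρ.symm v) = false := by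
        unfold grS
        rw [fill_other]
        rintro (q | q) hq
        · apply hv
          refine ⟨ρ (c (q, 2)), q, Or.inl ⟨?_, rfl⟩⟩
          change c (q, 0) = ρ.symm v at hq
          rw [hq, Equiv.apply_symm_apply]
        · apply hv
          refine ⟨ρ (c (q, 0)), q, Or.inr ⟨?_, rfl⟩⟩
          change c (q, 2) = ρ.symm v at hq
          rw [hq, Equiv.apply_symm_apply]
      rw [h0] at hv1
      exact Bool.noConfusion hv1
  have hpos : ∀ i : Fin n, (0 : ℤ) < (nu c ρ z z i.val : ℤ) := fun i => by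
    exact_mod_cast (nu_le hn c ρ z z i).1
  rintro ⟨i, j, l, hij, hil, hjl, h⟩
  rw [val4 hn hw c ρ z z i, val4 hn hw c ρ z z j, val4 hn hw c ρ z z l] at h
  have h2 : (0 : ℤ) < 2 ^ p := by positivity
  have hi := hpos i
  have hj := hpos j
  have hl := hpos l
  have key2 : (if i.val = 2 * m then (-1 : ℤ) else 1) * nu c ρ z z i.val +
      (if j.val = 2 * m then (-1 : ℤ) else 1) * nu c ρ z z j.val +
      (if l.val = 2 * m then (-1 : ℤ) else 1) * nu c ρ z z l.val = 0 := by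
    have h3 : (2 ^ p : ℤ) * ((if i.val = 2 * m then (-1 : ℤ) else 1) * nu c ρ z z i.val +
      (if j.val = 2 * m then (-1 : ℤ) else 1) * nu c ρ z z j.val +
      (if l.val = 2 * m then (-1 : ℤ) else 1) * nu c ρ z z l.val) = 0 := by
      rw [← h]
      ring
    rcases mul_eq_zero.1 h3 with h4 | h4
    · exact absurd h4 h2.ne'
    · exact h4
  have hij' : ¬ (i.val = 2 * m ∧ j.val = 2 * m) := fun h => hij (Fin.ext (h.1.trans h.2.symm))
  have hil' : ¬ (i.val = 2 * m ∧ l.val = 2 * m) := fun h => hil (Fin.ext (h.1.trans h.2.symm))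
  have hjl' : ¬ (j.val = 2 * m ∧ l.val = 2 * m) := fun h => hjl (Fin.ext (h.1.trans h.2.symm))
  by_cases h1 : i.val = 2 * m
  · rw [if_pos h1, if_neg (fun h => hij' ⟨h1, h⟩), if_neg (fun h => hil' ⟨h1, h⟩)] at key2
    exact hno j l i hjl (by zify; linarith)
  · by_cases h2 : j.val = 2 * m
    · rw [if_neg h1, if_pos h2, if_neg (fun h => hjl' ⟨h2, h⟩)] at key2
      exact hno i l j hil (by zify; linarith)
    · by_cases h3 : l.val = 2 * m
      · rw [if_neg h1, if_neg h2, if_pos h3] at key2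
        exact hno i j l hij (by zify; linarith)
      · rw [if_neg h1, if_neg h2, if_neg h3] at key2
        linarith

include hn1 hn hw in
theorem yes4 (z z' : Fin b → Bool) {q : Fin b} (hz : z q = true) (hz' : z' q = false) :
    Yes (inst4 n w p c ρ z z') := by
  obtain ⟨v, hv⟩ : ∃ v, v = ρ (c (q, 0)) := ⟨_, rfl⟩
  obtain ⟨u, hu⟩ : ∃ u, u = ρ (c (q, 2)) := ⟨_, rfl⟩
  have hp : pt c ρ u = v := pt_eq ⟨q, Or.inr ⟨hu, hv⟩⟩
  have hgv : grS true c z z' (ρ.symm v) = true := by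
    rw [hv, Equiv.symm_apply_apply, grS_0, hz]
  have hgu : grS true c z z' (ρ.symm u) = true := by
    rw [hu, Equiv.symm_apply_apply, grS_2, hz']; rfl
  have h1 := v.isLt
  have h2 := u.isLt
  refine ⟨⟨v.val, by omega⟩, ⟨m + u.val, by omega⟩, ⟨2 * m, by omega⟩, ?_, ?_, ?_, ?_⟩
  · intro h; have := congrArg Fin.val h; simp only at this; omega
  · intro h; have := congrArg Fin.val h; simp only at this; omega
  · intro h; have := congrArg Fin.val h; simp only at this; omega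
  rw [val4 hn hw c ρ z z', val4 hn hw c ρ z z', val4 hn hw c ρ z z']
  have e1 : nu c ρ z z' v.val = 8 * m + 8 + 4 * v.val + 1 := by
    rcases cls hn c ρ z z' ⟨v.val, by omega⟩ with ⟨t, ht, h⟩ | ⟨t, ht, h⟩ | ⟨ht, h⟩ | ⟨ht, h⟩
    · simp only at ht h
      rw [← Fin.ext ht, hgv] at h
      rw [h]; rfl
    · simp only at ht; omega
    · simp only at ht; omega
    · simp only at ht; omega
  have e2 : nu c ρ z z' (m + u.val) = 3 * (8 * m + 8) + 4 * (m - v.val) + 1 := by
    rcases cls hn c ρ z z' ⟨m + u.val, by omega⟩ with ⟨t, ht, h⟩ | ⟨t, ht, h⟩ | ⟨ht, h⟩ | ⟨ht, h⟩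
    · simp only at ht; have := t.isLt; omega
    · simp only at ht h
      have ht' : u.val = t.val := by omega
      rw [← Fin.ext ht', hgu, hp] at h
      rw [h]; rfl
    · simp only at ht; omega
    · simp only at ht; omega
  have e3 : nu c ρ z z' (2 * m) = 4 * (8 * m + 8) + 4 * m + 2 := by
    rcases cls hn c ρ z z' ⟨2 * m, by omega⟩ with ⟨t, ht, h⟩ | ⟨t, ht, h⟩ | ⟨ht, h⟩ | ⟨ht, h⟩
    · simp only at ht; have := t.isLt; omega
    · simp only at ht; have := t.isLt; omega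
    · exact h
    · simp only at ht; omega
  simp only [e1, e2, e3]
  rw [if_neg (by omega), if_neg (by omega), if_pos trivial]
  have h3 : v.val ≤ m := h1.le
  push_cast [Nat.cast_sub h3]
  ring

include hn hw in
theorem valid4 (hn4 : 2 ^ p * (16 * (8 * m + 8)) ≤ n ^ 4) (z z' : Fin b → Bool) :
    Valid (inst4 n w p c ρ z z') := by
  have hv := val4 hn hw c ρ z z'
  have h2 : (0 : ℤ) < 2 ^ p := by positivity
  constructor
  · intro i
    have h1 : |val (inst4 n w p c ρ z z') i| = (2 ^ p * nu c ρ z z' i.val : ℤ) := by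
      rw [hv, abs_mul, abs_of_nonneg (a := (2 ^ p * nu c ρ z z' i.val : ℤ)) (by positivity)]
      split_ifs <;> simp
    rw [h1]
    have := (Nat.mul_le_mul_left (2 ^ p) (nu_le hn c ρ z z' i).2).trans hn4
    exact_mod_cast this
  · intro i j h
    rw [hv, hv] at h
    have hi : (0 : ℤ) < (nu c ρ z z' i.val : ℤ) := by exact_mod_cast (nu_le hn c ρ z z' i).1
    have hj : (0 : ℤ) < (nu c ρ z z' j.val : ℤ) := by exact_mod_cast (nu_le hn c ρ z z' j).1
    have hi' := mul_pos h2 hi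
    have hj' := mul_pos h2 hj
    apply nu_inj hn c ρ z z'
    split_ifs at h with h3 h4 h4
    · rw [h3, h4]
    · linarith
    · linarith
    · have h5 := mul_left_cancel₀ h2.ne' (by linarith : (2 ^ p : ℤ) * nu c ρ z z' i.val =
        2 ^ p * nu c ρ z z' j.val)
      exact_mod_cast h5

end

theorem sum_fr4 {n m w : ℕ} (p : Fin (w + 1)) (g : Fin n × Option (Fin (w + 1)) → ℕ) :
    ∑ v with fr4 (w := w) (n := n) m p.val v ≠ none, g v ≤ ∑ i, g (i, some p) := by
  classical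
  calc ∑ v with fr4 (w := w) (n := n) m p.val v ≠ none, g v ≤
      ∑ v ∈ (univ : Finset (Fin n)).image (fun i => (i, some p)), g v := by
        apply sum_le_sum_of_subset
        rintro ⟨i, j⟩ hv
        rw [mem_filter] at hv
        rw [mem_image]
        refine ⟨i, mem_univ _, ?_⟩
        have h1 := hv.2
        unfold fr4 at h1
        cases j with
        | none => exact absurd rfl h1
        | some j =>
          simp only at h1
          by_cases hj : j.val = p.val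
          · rw [Fin.ext hj]
          · rw [if_neg hj] at h1
            exact absurd rfl h1
    _ = ∑ i, g (i, some p) := sum_image (by
        intro i _ j _ h
        exact (Prod.mk.injEq _ _ _ _ ▸ h).1)

/-- **3SUM**, the digit `p`. -/
theorem sum4 (k n w : ℕ) (hw : n ^ 4 < 2 ^ (w + 1)) (p : Fin (w + 1))
    (hp : 2 ^ (p.val + 7) ≤ n ^ 3)
    (R : Type) [Fintype R] [Nonempty R] (K W : R → Type) [∀ r, Field (K r)]
    [∀ r, Fintype (W r)] (T : ∀ r, Net (K r) (Fin n × Option (Fin (w + 1))) (W r))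
    (a : ∀ r, W r → K r)
    (hU : ∀ r x, Valid x → (T r).value (a r) x ≠ 0 → ¬ Yes x)
    (hc : ∀ x, Valid x → ¬ Yes x →
      Nat.card R ≤ 2 ^ (n / 2 ^ (240 * (k + 1))) * Nat.card {r // (T r).value (a r) x ≠ 0})
    (hd : ∀ r, ∑ i, (T r).reads (i, some p) ≤ k * n) :
    ∃ r, n ≤ 2 ^ (240 * (k + 1)) * (Nat.log 2 (Fintype.card (W r)) + 1) := by
  classical
  obtain ⟨D, hD⟩ : ∃ D, D = 2 ^ (240 * (k + 1)) := ⟨_, rfl⟩
  obtain ⟨E, hE⟩ : ∃ E, E = 2 ^ (60 * (4 * k + 1)) := ⟨_, rfl⟩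
  have hDE : D = 2 ^ 180 * E := by
    rw [hD, hE, ← pow_add]; congr 1; ring
  have hE1 : 1 ≤ E := by rw [hE]; exact Nat.one_le_two_pow
  have hDbig : 2 ^ 180 ≤ D := by rw [hDE]; exact Nat.le_mul_of_pos_right _ hE1
  rw [← hD] at hc ⊢
  rcases Nat.lt_or_ge n D with hnD | hnD
  · obtain ⟨r⟩ := (inferInstance : Nonempty R)
    exact ⟨r, hnD.le.trans (Nat.le_mul_of_pos_right _ (by omega))⟩
  obtain ⟨m, hm⟩ : ∃ m, m = (n - 1) / 2 := ⟨_, rfl⟩
  have hn1 : 2 * m + 1 ≤ n := by omega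
  have hn : n ≤ 2 * m + 2 := by omega
  have hn4 : n ≤ 4 * m := by omega
  obtain ⟨b, hb⟩ : ∃ b, b = m / 4 := ⟨_, rfl⟩
  have hb1 : m < 4 * (b + 1) := by rw [hb]; exact Nat.lt_mul_div_succ m (by norm_num)
  have hb2 : 4 * b ≤ m := by rw [hb]; exact Nat.mul_div_le _ _
  obtain ⟨c⟩ : Nonempty (Fin b × Fin 4 ↪ Fin m) := by
    apply Function.Embedding.nonempty_of_card_le
    rw [Fintype.card_prod, Fintype.card_fin, Fintype.card_fin, Fintype.card_fin]
    omega
  have hn3 : 2 ^ p.val * (16 * (8 * m + 8)) ≤ n ^ 4 := by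
    have h1 : 16 * (8 * m + 8) ≤ 2 ^ 7 * n := by omega
    calc 2 ^ p.val * (16 * (8 * m + 8)) ≤ 2 ^ p.val * (2 ^ 7 * n) := Nat.mul_le_mul_left _ h1
      _ = 2 ^ (p.val + 7) * n := by rw [pow_add]; ring
      _ ≤ n ^ 3 * n := Nat.mul_le_mul_right _ hp
      _ = n ^ 4 := by ring
  have hw' : 2 ^ p.val * (16 * (8 * m + 8)) < 2 ^ (w + 1) := hn3.trans_lt hw
  have hdiv : n / D ≤ m / E := by
    rw [Nat.le_div_iff_mul_le (by omega)]
    have h1 : n / D * D ≤ n := Nat.div_mul_le_self _ _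
    rw [hDE] at h1
    have h2 : n / D * (2 ^ 180 * E) = 2 ^ 180 * (n / D * E) := by ring
    rw [hDE] at h2 ⊢
    rw [h2] at h1
    omega
  obtain ⟨r, hr⟩ := final (V := Fin n × Option (Fin (w + 1))) (4 * k) (n := m) (b := b)
    (by omega) (fr4 m p.val) (inst4 n w p.val c) c (fun ρ z z' y y' v h => inI_diff h)
    (fun ρ z z' => ¬ Yes (inst4 n w p.val c ρ z z')) 0 (by
      rw [vol_zero]
      exact Nat.one_le_two_pow) (by
      rintro ρ z z' h ⟨e1, e2⟩
      unfold dst at h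
      obtain ⟨i, hi⟩ := card_pos.1 h
      have hi' := (mem_filter.1 hi).2
      cases hz : z i with
      | true =>
        cases hz' : z' i with
        | true => exact hi' (by rw [hz, hz'])
        | false => exact e1 (yes4 hn1 hn hw' c ρ z z' hz hz')
      | false =>
        cases hz' : z' i with
        | true => exact e2 (yes4 hn1 hn hw' c ρ z' z hz' hz)
        | false => exact hi' (by rw [hz, hz'])) R K W T a (by
      intro r ρ z z' h
      exact hU r _ (valid4 hn hw' c ρ hn3 z z') h) (by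
      intro ρ z
      refine (hc _ (valid4 hn hw' c ρ hn3 z z) (no4 hn hw' c ρ z)).trans
        (Nat.mul_le_mul_right _ (Nat.pow_le_pow_right (by norm_num) ?_))
      rw [← hE]
      exact hdiv) (by
      intro r
      calc ∑ v with fr4 (w := w) (n := n) m p.val v ≠ none, (T r).reads v ≤
            ∑ i, (T r).reads (i, some p) := sum_fr4 p _
        _ ≤ k * n := hd r
        _ ≤ k * (4 * m) := Nat.mul_le_mul_left _ hn4
        _ = 4 * k * m := by ring)
  refine ⟨r, ?_⟩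
  rw [← hE] at hr
  calc n ≤ 4 * m := hn4
    _ ≤ 4 * (E * (Nat.log 2 (Fintype.card (W r)) + 1)) := Nat.mul_le_mul_left _ hr
    _ = 4 * E * (Nat.log 2 (Fintype.card (W r)) + 1) := by ring
    _ ≤ D * (Nat.log 2 (Fintype.card (W r)) + 1) := by
        apply Nat.mul_le_mul_right
        rw [hDE]
        exact Nat.mul_le_mul_right _ (by norm_num)

/-- The asymptotic form for one digit. -/
theorem sum4_asym {ε : ℝ} (hε : 0 < ε) (hε1 : ε ≤ 1) : ∃ n₀ : ℕ, ∀ n ≥ n₀,
    ∀ m w μ : ℕ, n ^ 4 < 2 ^ (m + 1) → (w : ℝ) ≤ (n : ℝ) ^ (1 - ε) →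
      (μ : ℝ) ≤ (n : ℝ) ^ (1 - ε) →
    ∀ (p : Fin (m + 1)), 2 ^ (p.val + 7) ≤ n ^ 3 →
    ∀ (R : Type) [Fintype R] [Nonempty R] (K W : R → Type) [∀ r, Field (K r)]
      [∀ r, Fintype (W r)] (T : ∀ r, Net (K r) (Fin n × Option (Fin (m + 1))) (W r))
      (a : ∀ r, W r → K r), (∀ r, Fintype.card (W r) ≤ 2 ^ w) →
      (∀ r x, Valid x → (T r).value (a r) x ≠ 0 → ¬ Yes x) →
      (∀ x, Valid x → ¬ Yes x →
        Nat.card R ≤ 2 ^ μ * Nat.card {r // (T r).value (a r) x ≠ 0}) →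
      ∃ r, ε / 720 * (n * Real.logb 2 n) ≤ (∑ i, (T r).reads (i, some p) : ℕ) := by
  obtain ⟨n₀, hn₀⟩ := asym' 240 (by norm_num) hε hε1
  refine ⟨n₀, fun n hn m w μ hm hw hμ p hp R _ _ K W _ _ T a hW hU hc => ?_⟩
  obtain ⟨r, hr⟩ := hn₀ n hn w μ hw hμ R (fun r => ∑ i, (T r).reads (i, some p))
    (fun r => Nat.log 2 (Fintype.card (W r))) (fun r => by
      refine (Nat.log_mono_right (hW r)).trans (le_of_eq ?_)
      exact Nat.log_pow (by norm_num) w) (fun k hk hd => by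
      refine sum4 k n m hm p hp R K W T a hU (fun x hx hx' => ?_) hd
      exact (hc x hx hx').trans (Nat.mul_le_mul_right _ (Nat.pow_le_pow_right (by norm_num) hk)))
  refine ⟨r, le_trans (le_of_eq ?_) hr⟩
  norm_num

/-- There are many digits. -/
theorem card_digits {n m : ℕ} (hm : n ^ 4 < 2 ^ (m + 1)) (hn : 2 ^ 7 ≤ n) :
    2 * Real.logb 2 n ≤
      ((univ.filter (fun p : Fin (m + 1) => 2 ^ (p.val + 7) ≤ n ^ 3)).card : ℝ) := by
  have hn1 : 1 ≤ n := by omega
  have hn3 : n ^ 3 ≠ 0 := by positivity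
  obtain ⟨t, ht⟩ : ∃ t, t = Nat.log 2 (n ^ 3) - 6 := ⟨_, rfl⟩
  have h21 : 21 ≤ Nat.log 2 (n ^ 3) := by
    apply Nat.le_log_of_pow_le (by norm_num)
    calc 2 ^ 21 = (2 ^ 7) ^ 3 := by norm_num
      _ ≤ n ^ 3 := Nat.pow_le_pow_left hn 3
  have hlt : ∀ i : Fin t, 2 ^ (i.val + 7) ≤ n ^ 3 := by
    intro i
    have hi := i.isLt
    exact (Nat.pow_le_pow_right (by norm_num) (by omega)).trans (Nat.pow_log_le_self 2 hn3)
  have hltm : ∀ i : Fin t, i.val < m + 1 := by
    intro i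
    have h1 : 2 ^ i.val < 2 ^ (m + 1) := by
      calc 2 ^ i.val ≤ 2 ^ (i.val + 7) := Nat.pow_le_pow_right (by norm_num) (by omega)
        _ ≤ n ^ 3 := hlt i
        _ ≤ n ^ 4 := Nat.pow_le_pow_right hn1 (by norm_num)
        _ < _ := hm
    exact (Nat.pow_lt_pow_iff_right (by norm_num)).1 h1
  have hcard : t ≤ (univ.filter (fun p : Fin (m + 1) => 2 ^ (p.val + 7) ≤ n ^ 3)).card := by
    calc t = (univ : Finset (Fin t)).card := by rw [card_univ, Fintype.card_fin]
      _ ≤ _ := card_le_card_of_injOn (fun i => ⟨i.val, hltm i⟩) (fun i _ => by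
          rw [mem_coe, mem_filter]
          exact ⟨mem_univ _, hlt i⟩) (fun i _ j _ h => by
          have := congrArg Fin.val h
          exact Fin.ext this)
  have hlog : Real.logb 2 n * 3 < Nat.log 2 (n ^ 3) + 1 := by
    have h1 : n ^ 3 < 2 ^ (Nat.log 2 (n ^ 3) + 1) := Nat.lt_pow_succ_log_self (by norm_num) _
    have h2 : ((n : ℝ) ^ 3) < (2 : ℝ) ^ (Nat.log 2 (n ^ 3) + 1) := by exact_mod_cast h1
    have h3 : Real.logb 2 ((n : ℝ) ^ 3) < Real.logb 2 ((2 : ℝ) ^ (Nat.log 2 (n ^ 3) + 1)) :=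
      Real.logb_lt_logb (by norm_num) (by positivity) h2
    rw [Real.logb_pow, Real.logb_pow, Real.logb_self_eq_one (by norm_num), mul_one] at h3
    push_cast at h3
    linarith
  have hlog7 : 7 ≤ Real.logb 2 n := by
    rw [Real.le_logb_iff_rpow_le (by norm_num) (by exact_mod_cast hn1)]
    have : (2 : ℝ) ^ (7 : ℝ) = ((2 ^ 7 : ℕ) : ℝ) := by norm_num
    rw [this]
    exact_mod_cast hn
  have ht' : (Nat.log 2 (n ^ 3) : ℝ) = t + 6 := by
    have : Nat.log 2 (n ^ 3) = t + 6 := by omega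
    rw [this]
    push_cast
    rfl
  have hcard' : (t : ℝ) ≤
      ((univ.filter (fun p : Fin (m + 1) => 2 ^ (p.val + 7) ≤ n ^ 3)).card : ℝ) := by
    exact_mod_cast hcard
  linarith

/-- The asymptotic form for all bits. -/
theorem sum4_total {ε : ℝ} (hε : 0 < ε) (hε1 : ε ≤ 1) : ∃ n₀ : ℕ, ∀ n ≥ n₀,
    ∀ m w : ℕ, n ^ 4 < 2 ^ (m + 1) → (w : ℝ) ≤ (n : ℝ) ^ (1 - ε) →
    ∀ (K W : Type) [Field K] [Fintype W] (T : Net K (Fin n × Option (Fin (m + 1))) W)
      (a : W → K), Fintype.card W ≤ 2 ^ w →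
      (∀ x, Valid x → (T.value a x ≠ 0 ↔ ¬ Yes x)) →
      ε / 360 * (n * Real.logb 2 n ^ 2) ≤ (∑ v, T.reads v : ℕ) := by
  classical
  obtain ⟨n₀, hn₀⟩ := sum4_asym hε hε1
  refine ⟨max n₀ (2 ^ 7), fun n hn m w hm hw K W _ _ T a hW hT => ?_⟩
  have hn7 : 2 ^ 7 ≤ n := (le_max_right _ _).trans hn
  obtain ⟨P, hP⟩ : ∃ P, P = univ.filter (fun p : Fin (m + 1) => 2 ^ (p.val + 7) ≤ n ^ 3) :=
    ⟨_, rfl⟩
  have hlog : 0 ≤ Real.logb 2 n := Real.logb_nonneg (by norm_num) (by
    have : 1 ≤ n := by omega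
    exact_mod_cast this)
  have hPc : 2 * Real.logb 2 n ≤ (P.card : ℝ) := by
    rw [hP]
    exact card_digits hm hn7
  have h1 : ∀ p ∈ P, ε / 720 * (n * Real.logb 2 n) ≤
      ((∑ i, T.reads (i, some p) : ℕ) : ℝ) := by
    intro p hp
    rw [hP, mem_filter] at hp
    obtain ⟨r, hr⟩ := hn₀ n ((le_max_left _ _).trans hn) m w 0 hm hw (by
      rw [Nat.cast_zero]
      positivity) p hp.2 Unit (fun _ => K) (fun _ => W) (fun _ => T)
      (fun _ => a) (fun _ => hW) (fun _ x hx h => (hT x hx).1 h) (fun x hx h => by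
      have h2 : Nat.card {r : Unit // T.value a x ≠ 0} = 1 := by
        rw [Nat.card_eq_one_iff_unique]
        exact ⟨⟨fun a b => Subtype.ext rfl⟩, ⟨⟨(), (hT x hx).2 h⟩⟩⟩
      rw [h2, mul_one, Nat.card_unique]
      exact Nat.one_le_two_pow)
    exact hr
  have h2 : (P.card : ℝ) * (ε / 720 * (n * Real.logb 2 n)) ≤
      ((∑ p ∈ P, ∑ i, T.reads (i, some p) : ℕ) : ℝ) := by
    rw [Nat.cast_sum]
    calc (P.card : ℝ) * (ε / 720 * (n * Real.logb 2 n)) =
        ∑ _p ∈ P, (ε / 720 * (n * Real.logb 2 n)) := by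
          rw [sum_const, nsmul_eq_mul]
      _ ≤ _ := sum_le_sum (fun p hp => h1 p hp)
  have h3 : (∑ p ∈ P, ∑ i, T.reads (i, some p)) ≤ ∑ v, T.reads v := by
    rw [Fintype.sum_prod_type, sum_comm]
    refine sum_le_sum (fun i _ => ?_)
    rw [Fintype.sum_option]
    exact (sum_le_sum_of_subset (subset_univ P)).trans (Nat.le_add_left _ _)
  have h4 : ((∑ p ∈ P, ∑ i, T.reads (i, some p) : ℕ) : ℝ) ≤ ((∑ v, T.reads v : ℕ) : ℝ) := by
    exact_mod_cast h3
  refine le_trans ?_ (h2.trans h4)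
  have h5 : 0 ≤ ε / 720 * (n * Real.logb 2 n) := by positivity
  calc ε / 360 * (n * Real.logb 2 n ^ 2) =
      (2 * Real.logb 2 n) * (ε / 720 * (n * Real.logb 2 n)) := by ring
    _ ≤ _ := mul_le_mul_of_nonneg_right hPc h5

/-- A network. -/
theorem sum4_upper (K : Type) [Field K] (n m : ℕ) (hn : 1 ≤ n) (p : Fin (m + 1)) :
    ∃ (W : Type) (_ : Fintype W) (T : Net K (Fin n × Option (Fin (m + 1))) W) (a : W → K),
      Fintype.card W = 2 ^ n + 1 ∧ (∀ i, T.reads (i, some p) = 1) ∧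
        ∀ x, T.value a x ≠ 0 ↔ Valid x ∧ ¬ Yes x := by
  classical
  obtain ⟨W, hW, T, a, h1, h2, h3⟩ := exists_net K
    ((univ : Finset (Fin n)).image (fun i => (i, some p)))
    ⟨(⟨0, hn⟩, some p), mem_image_of_mem _ (mem_univ _)⟩ ⟨(⟨0, hn⟩, none), by
      rw [mem_image]
      rintro ⟨i, -, h⟩
      exact absurd (congrArg Prod.snd h) (by simp)⟩ (fun x => Valid x ∧ ¬ Yes x)
  refine ⟨W, hW, T, a, ?_, fun i => h2 _ (mem_image_of_mem _ (mem_univ _)), h3⟩
  rw [h1, card_image_of_injective _ (fun i j h => congrArg Prod.fst h), card_univ,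
    Fintype.card_fin]

end Pool.Agent.V11163.NT.S4
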