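import Pool.Agent.V11231.TRI.Main
import Pool.Agent.V11163.NT.FinS
import Pool.Agent.V11163.NT.Upper
import Pool.Agent.V11163.NT.Asym

/-!
# Triangles in sparse graphs and tree tensor networks with many reads
-/

set_option autoImplicit false
set_option exponentiation.threshold 1000

open Finset

namespace Pool.Agent.V11163.NT.TR

open Pool.Agent.TH700.TN Pool.Agent.V11163.NT Pool.Agent.V11231.TRI
open Pool.Agent.W896.RK Pool.Agent.W896.HP Pool.Agent.W896.FD Pool.Agent.W896.FD.Star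
open Pool.Agent.W896.FD.Tri

/-- One row. -/
theorem tri_row (k n : ℕ) (u : Fin (n + 1)) (R : Type) [Fintype R] [Nonempty R]
    (K W : R → Type) [∀ r, Field (K r)] [∀ r, Fintype (W r)]
    (T : ∀ r, Net (K r) (Sym2 (Fin (n + 1))) (W r)) (a : ∀ r, W r → K r)
    (hU : ∀ r G, Sparse G → (T r).value (a r) (bits G) ≠ 0 → G.CliqueFree 3)
    (hc : ∀ G : SimpleGraph (Fin (n + 1)), Sparse G → G.CliqueFree 3 →
      Nat.card R ≤ 2 ^ (n / 2 ^ (60 * (k + 1))) *
        Nat.card {r // (T r).value (a r) (bits G) ≠ 0})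
    (hd : ∀ r, ∑ e, (T r).reads (row u e) ≤ k * n) :
    ∃ r, n ≤ 2 ^ (60 * (k + 1)) * (Nat.log 2 (Fintype.card (W r)) + 1) := by
  classical
  obtain ⟨b, hb⟩ : ∃ b, b = n / 4 := ⟨_, rfl⟩
  have hb1 : n < 4 * (b + 1) := by rw [hb]; exact Nat.lt_mul_div_succ n (by norm_num)
  have hb2 : 4 * b ≤ n := by rw [hb]; exact Nat.mul_div_le _ _
  obtain ⟨c⟩ : Nonempty (Fin b × Fin 4 ↪ Fin n) := by
    apply Function.Embedding.nonempty_of_card_le
    rw [Fintype.card_prod, Fintype.card_fin, Fintype.card_fin, Fintype.card_fin]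
    omega
  refine finalS (ν := true) k (b := b) (by omega) (row_inj u) (mbit u c) c
    (fun ρ z z' => (GT u c ρ z z').CliqueFree 3) 0 ?_ ?_ R K W T a ?_ ?_ hd
  · rw [vol_zero]
    exact Nat.one_le_two_pow
  · rintro ρ z z' h ⟨h1, h2⟩
    unfold dst at h
    obtain ⟨i, hi⟩ := card_pos.1 h
    have hi' := (mem_filter.1 hi).2
    cases hz : z i with
    | true =>
      cases hz' : z' i with
      | true => exact hi' (by rw [hz, hz'])
      | false => exact not_free u c ρ z z' hz hz' h1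
    | false =>
      cases hz' : z' i with
      | true => exact not_free u c ρ z' z hz' hz h2
      | false => exact hi' (by rw [hz, hz'])
  · intro r ρ z z' h
    rw [← bits_GT] at h
    exact hU r _ (sparse_GT hb2 u c ρ z z') h
  · intro ρ z
    have := hc _ (sparse_GT hb2 u c ρ z z) (free u c ρ z)
    rwa [bits_GT] at this

/-- One vertex. -/
theorem tri_vertex (k n : ℕ) (u : Fin n) (R : Type) [Fintype R] [Nonempty R]
    (K W : R → Type) [∀ r, Field (K r)] [∀ r, Fintype (W r)]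
    (T : ∀ r, Net (K r) (Sym2 (Fin n)) (W r)) (a : ∀ r, W r → K r)
    (hU : ∀ r G, Sparse G → (T r).value (a r) (bits G) ≠ 0 → G.CliqueFree 3)
    (hc : ∀ G : SimpleGraph (Fin n), Sparse G → G.CliqueFree 3 →
      Nat.card R ≤ 2 ^ (n / 2 ^ (60 * (k + 3))) *
        Nat.card {r // (T r).value (a r) (bits G) ≠ 0})
    (hd : ∀ r, ∑ v, (T r).reads s(u, v) ≤ k * n) :
    ∃ r, n ≤ 2 ^ (60 * (k + 3)) * (Nat.log 2 (Fintype.card (W r)) + 1) := by
  classical
  have hk : k + 1 ≤ 2 ^ k := Nat.lt_two_pow_self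
  have hpow : 2 ^ (60 * (k + 3)) = 2 ^ 60 * 2 ^ (60 * (k + 2)) := by
    rw [← pow_add]; congr 1; ring
  have hbig : k + 2 ≤ 2 ^ (60 * (k + 3)) := by
    calc k + 2 ≤ 2 ^ k * 2 ^ 1 := by omega
      _ = 2 ^ (k + 1) := by rw [pow_add]
      _ ≤ _ := Nat.pow_le_pow_right (by norm_num) (by omega)
  rcases Nat.lt_or_ge n (k + 2) with hn | hn
  · obtain ⟨r⟩ := (inferInstance : Nonempty R)
    exact ⟨r, (hn.le.trans hbig).trans (Nat.le_mul_of_pos_right _ (by omega))⟩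
  obtain ⟨n', rfl⟩ : ∃ n', n = n' + 1 := ⟨n - 1, by omega⟩
  have hpos : 0 < 2 ^ (60 * (k + 2)) := Nat.two_pow_pos _
  have hq : (n' + 1) / 2 ^ (60 * (k + 3)) ≤ n' / 2 ^ (60 * (k + 1 + 1)) := by
    rw [Nat.le_div_iff_mul_le (Nat.two_pow_pos _)]
    have h1 : (n' + 1) / 2 ^ (60 * (k + 3)) * 2 ^ (60 * (k + 3)) ≤ n' + 1 :=
      Nat.div_mul_le_self _ _
    have h2 : (n' + 1) / 2 ^ (60 * (k + 3)) * (2 * 2 ^ (60 * (k + 2))) ≤ n' + 1 := by
      refine le_trans (Nat.mul_le_mul_left _ ?_) h1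
      rw [hpow]
      exact Nat.mul_le_mul_right _ (by norm_num)
    have e1 : 60 * (k + 1 + 1) = 60 * (k + 2) := by ring
    rw [e1]
    have h3 : (n' + 1) / 2 ^ (60 * (k + 3)) * (2 * 2 ^ (60 * (k + 2))) =
        2 * ((n' + 1) / 2 ^ (60 * (k + 3)) * 2 ^ (60 * (k + 2))) := by ring
    rw [h3] at h2
    omega
  obtain ⟨r, hr⟩ := tri_row (k + 1) n' u R K W T a hU (fun G hs hG => (hc G hs hG).trans
    (Nat.mul_le_mul_right _ (Nat.pow_le_pow_right (by norm_num) hq))) (fun r => by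
      have h1 : ∑ v, (T r).reads (row u v) ≤ ∑ v, (T r).reads s(u, v) := by
        rw [Fin.sum_univ_succAbove (fun v => (T r).reads s(u, v)) u]
        unfold row
        exact Nat.le_add_left _ _
      refine h1.trans ((hd r).trans ?_)
      nlinarith)
  refine ⟨r, ?_⟩
  have e1 : 60 * (k + 1 + 1) = 60 * (k + 2) := by ring
  rw [e1] at hr
  rw [hpow]
  have h4 : 1 ≤ 2 ^ (60 * (k + 2)) * (Nat.log 2 (Fintype.card (W r)) + 1) :=
    Nat.mul_pos hpos (by omega)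
  nlinarith

/-- Every pair is counted at most twice. -/
theorem sum_pairs {n : ℕ} (g : Sym2 (Fin n) → ℕ) :
    ∑ u : Fin n, ∑ v : Fin n, g s(u, v) ≤ 2 * ∑ e, g e := by
  classical
  rw [← Fintype.sum_prod_type']
  rw [← sum_fiberwise (univ : Finset (Fin n × Fin n)) (fun x => s(x.1, x.2))
    (fun x => g s(x.1, x.2)), mul_sum]
  refine sum_le_sum (fun e _ => ?_)
  have h2 : ∑ x ∈ univ.filter (fun x : Fin n × Fin n => s(x.1, x.2) = e), g s(x.1, x.2) =
      ∑ x ∈ univ.filter (fun x : Fin n × Fin n => s(x.1, x.2) = e), g e :=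
    sum_congr rfl (fun x hx => by rw [(mem_filter.1 hx).2])
  rw [h2, sum_const, smul_eq_mul]
  apply Nat.mul_le_mul_right
  induction e with
  | _ x y =>
    have h3 : univ.filter (fun z : Fin n × Fin n => s(z.1, z.2) = s(x, y)) ⊆
        {(x, y), (y, x)} := by
      intro z hz
      have := (mem_filter.1 hz).2
      rw [Sym2.eq_iff] at this
      rw [mem_insert, mem_singleton]
      rcases this with ⟨h4, h5⟩ | ⟨h4, h5⟩
      · exact Or.inl (Prod.ext h4 h5)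
      · exact Or.inr (Prod.ext h4 h5)
    exact (card_le_card h3).trans card_le_two

/-- The asymptotic form for one vertex. -/
theorem tri_asym {ε : ℝ} (hε : 0 < ε) (hε1 : ε ≤ 1) : ∃ n₀ : ℕ, ∀ n ≥ n₀,
    ∀ w μ : ℕ, (w : ℝ) ≤ (n : ℝ) ^ (1 - ε) → (μ : ℝ) ≤ (n : ℝ) ^ (1 - ε) →
    ∀ (u : Fin n) (R : Type) [Fintype R] [Nonempty R] (K W : R → Type) [∀ r, Field (K r)]
      [∀ r, Fintype (W r)] (T : ∀ r, Net (K r) (Sym2 (Fin n)) (W r))
      (a : ∀ r, W r → K r), (∀ r, Fintype.card (W r) ≤ 2 ^ w) →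
      (∀ r G, Sparse G → (T r).value (a r) (bits G) ≠ 0 → G.CliqueFree 3) →
      (∀ G : SimpleGraph (Fin n), Sparse G → G.CliqueFree 3 →
        Nat.card R ≤ 2 ^ μ * Nat.card {r // (T r).value (a r) (bits G) ≠ 0}) →
      ∃ r, ε / 540 * (n * Real.logb 2 n) ≤ (∑ v, (T r).reads s(u, v) : ℕ) := by
  obtain ⟨n₀, hn₀⟩ := asym' 180 (by norm_num) hε hε1
  refine ⟨n₀, fun n hn w μ hw hμ u R _ _ K W _ _ T a hW hU hc => ?_⟩
  have hpow : ∀ k : ℕ, 2 ^ (60 * (k + 3)) ≤ 2 ^ (180 * (k + 1)) := fun k =>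
    Nat.pow_le_pow_right (by norm_num) (by omega)
  obtain ⟨r, hr⟩ := hn₀ n hn w μ hw hμ R (fun r => ∑ v, (T r).reads s(u, v))
    (fun r => Nat.log 2 (Fintype.card (W r))) (fun r => by
      refine (Nat.log_mono_right (hW r)).trans (le_of_eq ?_)
      exact Nat.log_pow (by norm_num) w) (fun k hk hd => by
      obtain ⟨r, hr⟩ := tri_vertex k n u R K W T a hU (fun x hs hx =>
        (hc x hs hx).trans (Nat.mul_le_mul_right _ (Nat.pow_le_pow_right (by norm_num)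
          (hk.trans (Nat.div_le_div_left (hpow k) (Nat.two_pow_pos _)))))) hd
      exact ⟨r, hr.trans (Nat.mul_le_mul_right _ (hpow k))⟩)
  refine ⟨r, le_trans (le_of_eq ?_) hr⟩
  norm_num

/-- The asymptotic form for all bits. -/
theorem tri_total {ε : ℝ} (hε : 0 < ε) (hε1 : ε ≤ 1) : ∃ n₀ : ℕ, ∀ n ≥ n₀,
    ∀ w : ℕ, (w : ℝ) ≤ (n : ℝ) ^ (1 - ε) →
    ∀ (K W : Type) [Field K] [Fintype W] (T : Net K (Sym2 (Fin n)) W) (a : W → K),
      Fintype.card W ≤ 2 ^ w →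
      (∀ G, Sparse G → (T.value a (bits G) ≠ 0 ↔ G.CliqueFree 3)) →
      ε / 1080 * (n ^ 2 * Real.logb 2 n) ≤ (∑ e, T.reads e : ℕ) := by
  obtain ⟨n₀, hn₀⟩ := tri_asym hε hε1
  refine ⟨n₀, fun n hn w hw K W _ _ T a hW hT => ?_⟩
  have h1 : ∀ u : Fin n, ε / 540 * (n * Real.logb 2 n) ≤
      ((∑ v, T.reads s(u, v) : ℕ) : ℝ) := by
    intro u
    obtain ⟨r, hr⟩ := hn₀ n hn w 0 hw (by
      rw [Nat.cast_zero]
      positivity) u Unit (fun _ => K) (fun _ => W) (fun _ => T)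
      (fun _ => a) (fun _ => hW) (fun _ x hx h => (hT x hx).1 h) (fun x hx h => by
      have h2 : Nat.card {r : Unit // T.value a (bits x) ≠ 0} = 1 := by
        rw [Nat.card_eq_one_iff_unique]
        exact ⟨⟨fun a b => Subtype.ext rfl⟩, ⟨⟨(), (hT x hx).2 h⟩⟩⟩
      rw [h2, mul_one, Nat.card_unique]
      exact Nat.one_le_two_pow)
    exact hr
  have h2 : (n : ℝ) * (ε / 540 * (n * Real.logb 2 n)) ≤
      ((∑ u : Fin n, ∑ v : Fin n, T.reads s(u, v) : ℕ) : ℝ) := by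
    rw [Nat.cast_sum]
    calc (n : ℝ) * (ε / 540 * (n * Real.logb 2 n)) =
        ∑ _u : Fin n, (ε / 540 * (n * Real.logb 2 n)) := by
          rw [sum_const, card_univ, Fintype.card_fin, nsmul_eq_mul]
      _ ≤ _ := sum_le_sum (fun u _ => h1 u)
  have h3 : ((∑ u : Fin n, ∑ v : Fin n, T.reads s(u, v) : ℕ) : ℝ) ≤
      2 * ((∑ e, T.reads e : ℕ) : ℝ) := by
    exact_mod_cast sum_pairs (fun x => T.reads x)
  have h4 : (n : ℝ) * (ε / 540 * (n * Real.logb 2 n)) =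
      2 * (ε / 1080 * (n ^ 2 * Real.logb 2 n)) := by ring
  linarith

/-- A network. -/
theorem tri_upper (K : Type) [Field K] (n : ℕ) (hn : 2 ≤ n) (u : Fin n) :
    ∃ (W : Type) (_ : Fintype W) (T : Net K (Sym2 (Fin n)) W) (a : W → K),
      Fintype.card W = 2 ^ n + 1 ∧ (∀ v, T.reads s(u, v) = 1) ∧
        ∀ G : SimpleGraph (Fin n), T.value a (bits G) ≠ 0 ↔ G.CliqueFree 3 := by
  classical
  obtain ⟨v, hv⟩ : ∃ v : Fin n, v ≠ u := by
    haveI : Nontrivial (Fin n) := Fin.nontrivial_iff_two_le.2 hn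
    exact exists_ne u
  obtain ⟨W, hW, T, a, h1, h2, h3⟩ := exists_net K
    ((univ : Finset (Fin n)).image (fun v => s(u, v)))
    ⟨_, mem_image_of_mem _ (mem_univ u)⟩ ⟨s(v, v), by
      rw [mem_image]
      rintro ⟨i, -, h⟩
      rw [Sym2.eq_iff] at h
      rcases h with ⟨h, -⟩ | ⟨h, -⟩ <;> exact hv h.symm⟩
    (fun x => ∃ G : SimpleGraph (Fin n), bits G = x ∧ G.CliqueFree 3)
  refine ⟨W, hW, T, a, ?_, fun i => h2 _ (mem_image_of_mem _ (mem_univ _)), fun G => ?_⟩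
  · rw [h1, card_image_of_injective, card_univ, Fintype.card_fin]
    intro i j h
    exact Sym2.congr_right.1 h
  · rw [h3]
    constructor
    · rintro ⟨G', hG', h⟩
      have : G' = G := by
        rw [← SimpleGraph.edgeSet_inj]
        ext e
        rw [← bits_true, ← bits_true, hG']
      rw [← this]
      exact h
    · intro h
      exact ⟨G, rfl, h⟩

end Pool.Agent.V11163.NT.TR
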